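import Pool.Agent.Helper4.BM.Frob

/-!
Coprime action: a finite group `Y` of order prime to `p` normalised by an element `z` of order
`p` has `z`-invariant Sylow subgroups.
-/

namespace Pool.Agent.Helper4.BM

open Subgroup

variable {G : Type*} [Group G]

theorem cop_sylow {p q : ℕ} [hp : Fact p.Prime] [hq : Fact q.Prime] (Y : Subgroup G)
    (hY : Finite Y) (hpY : ¬ p ∣ Nat.card Y) (z : G) (hz : orderOf z = p)
    (hzY : ∀ y, y ∈ Y ↔ z * y * z⁻¹ ∈ Y) :
    ∃ T : Subgroup G, T ≤ Y ∧ IsPGroup q T ∧ (∀ t ∈ T, z * t * z⁻¹ ∈ T) ∧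
      ¬ q ∣ T.relIndex Y := by
  set X := normalizer (Y : Set G) with hX
  have hzX : z ∈ X := mem_normalizer_iff.2 hzY
  set Y1 := Y.subgroupOf X with hY1
  have hY1f : Finite Y1 := Finite.of_injective (fun y : Y1 =>
      (⟨((y : X) : G), mem_subgroupOf.1 y.2⟩ : Y))
      (fun y1 y2 h12 => Subtype.ext (Subtype.ext (congrArg (fun t : Y => (t : G)) h12)))
  have hcard : Nat.card Y1 = Nat.card Y := by
    apply Nat.card_congr
    exact
      { toFun := fun y => ⟨((y : X) : G), mem_subgroupOf.1 y.2⟩
        invFun := fun y => ⟨⟨(y : G), le_normalizer y.2⟩, mem_subgroupOf.2 y.2⟩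
        left_inv := fun _ => rfl
        right_inv := fun _ => rfl }
  let z' : X := ⟨z, hzX⟩
  have hz' : orderOf z' = p := by rw [Subgroup.orderOf_mk]; exact hz
  let φ : zpowers z' →* MulAut Y1 := (MulAut.conjNormal (H := Y1)).comp (zpowers z').subtype
  letI : MulAction (zpowers z') (Sylow q Y1) := MulAction.compHom _ φ
  have hpz : IsPGroup p (zpowers z') := by
    apply IsPGroup.of_card (n := 1)
    rw [Nat.card_zpowers, hz', pow_one]
  have hns : ¬ p ∣ Nat.card (Sylow q Y1) := by
    intro hd
    obtain ⟨P⟩ : Nonempty (Sylow q Y1) := inferInstance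
    apply hpY
    rw [← hcard]
    exact (hd.trans P.card_dvd_index).trans (index_dvd_card _)
  obtain ⟨T, hT⟩ := hpz.nonempty_fixed_point_of_prime_not_dvd_card (Sylow q Y1) hns
  have hTz : (φ ⟨z', mem_zpowers z'⟩) • T = T := hT ⟨z', mem_zpowers z'⟩
  refine ⟨((T : Subgroup Y1).map Y1.subtype).map X.subtype, ?_, ?_, ?_, ?_⟩
  · rintro _ ⟨_, ⟨y, -, rfl⟩, rfl⟩
    exact mem_subgroupOf.1 y.2
  · exact (T.isPGroup'.map _).map _
  · rintro _ ⟨_, ⟨y, hy, rfl⟩, rfl⟩
    refine ⟨_, ⟨φ ⟨z', mem_zpowers z'⟩ y, ?_, rfl⟩, ?_⟩
    · have h1 : φ ⟨z', mem_zpowers z'⟩ • y ∈ ((φ ⟨z', mem_zpowers z'⟩ • T : Sylow q Y1) :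
          Subgroup Y1) := by
        rw [Sylow.pointwise_smul_def]
        exact Subgroup.smul_mem_pointwise_smul y _ _ hy
      rw [hTz] at h1
      exact h1
    · rfl
  · intro hd
    apply T.not_dvd_index
    have h1 : (((T : Subgroup Y1).map Y1.subtype).map X.subtype).relIndex Y =
        (T : Subgroup Y1).index := by
      have h2 : Y = Y1.map X.subtype := by
        rw [hY1, subgroupOf_map_subtype, left_eq_inf]
        exact le_normalizer
      conv_lhs => rw [h2]
      rw [relIndex_map_map_of_injective _ _ X.subtype_injective]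
      rw [relIndex, subgroupOf, comap_map_eq_self_of_injective Y1.subtype_injective]
    rwa [h1] at hd

/-- Every element of prime order `q` of `N` centralised by `z` lies in a `z`-invariant Sylow
subgroup. -/
theorem sylow_inv {p q : ℕ} [hp : Fact p.Prime] [hq : Fact q.Prime] (N : Subgroup G)
    (hN : Finite N) (hpN : ¬ p ∣ Nat.card N) (z : G) (hz : orderOf z = p)
    (hzN : ∀ y, y ∈ N ↔ z * y * z⁻¹ ∈ N) (w : G) (hwN : w ∈ N) (hw : orderOf w = q)
    (hwz : z * w = w * z) :
    ∃ S : Subgroup G, S ≤ N ∧ IsPGroup q S ∧ (∀ t ∈ S, z * t * z⁻¹ ∈ S) ∧ w ∈ S ∧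
      ¬ q ∣ S.relIndex N := by
  have key : ∀ n : ℕ, ∀ S : Subgroup G, S ≤ N → IsPGroup q S → (∀ t ∈ S, z * t * z⁻¹ ∈ S) →
      w ∈ S → Nat.card N ≤ Nat.card S + n → ∃ S : Subgroup G, S ≤ N ∧ IsPGroup q S ∧
        (∀ t ∈ S, z * t * z⁻¹ ∈ S) ∧ w ∈ S ∧ ¬ q ∣ S.relIndex N := by
    intro n
    induction n with
    | zero =>
      intro S hSN hS hSz hwS hcard
      refine ⟨S, hSN, hS, hSz, hwS, ?_⟩
      have : S = N := by
        apply SetLike.ext'
        exact Set.Finite.eq_of_subset_of_card_le (Set.toFinite _) hSN (by simpa using hcard)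
      rw [this, relIndex_self]
      exact hq.out.one_lt.ne' ∘ Nat.dvd_one.1
    | succ n ih =>
      intro S hSN hS hSz hwS hcard
      by_cases hd : q ∣ S.relIndex N
      · have hSf : Finite S := Finite.of_injective (inclusion hSN) (inclusion_injective hSN)
        have hSz' : ∀ t, t ∈ S ↔ z * t * z⁻¹ ∈ S := by
          intro t
          refine ⟨hSz t, fun ht => ?_⟩
          have hinj : Function.Injective (fun y : S => (⟨z * (y : G) * z⁻¹, hSz _ y.2⟩ : S)) := by
            intro y1 y2 h12
            have : z * (y1 : G) * z⁻¹ = z * (y2 : G) * z⁻¹ := congrArg Subtype.val h12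
            exact Subtype.ext (by simpa using this)
          obtain ⟨y, hy⟩ := (Finite.surjective_of_injective hinj) ⟨_, ht⟩
          have h1 : z * (y : G) * z⁻¹ = z * t * z⁻¹ := congrArg Subtype.val hy
          have h2 : (y : G) = t := by simpa using h1
          rw [← h2]
          exact y.2
        set Y : Subgroup G := N ⊓ normalizer (S : Set G) with hYdef
        have hYf : Finite Y := Finite.of_injective (inclusion (inf_le_left : Y ≤ N))
          (inclusion_injective _)
        have hYz : ∀ y, y ∈ Y ↔ z * y * z⁻¹ ∈ Y := by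
          intro y
          have h1 : y ∈ normalizer (S : Set G) ↔ z * y * z⁻¹ ∈ normalizer (S : Set G) := by
            have hzS : z ∈ normalizer (S : Set G) := mem_normalizer_iff.2 hSz'
            constructor
            · intro h
              exact mul_mem (mul_mem hzS h) (inv_mem hzS)
            · intro h
              have h2 := mul_mem (mul_mem (inv_mem hzS) h) hzS
              have h3 : z⁻¹ * (z * y * z⁻¹) * z = y := by group
              rwa [h3] at h2
          constructor
          · rintro ⟨h2, h3⟩
            exact ⟨(hzN y).1 h2, h1.1 h3⟩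
          · rintro ⟨h2, h3⟩
            exact ⟨(hzN y).2 h2, h1.2 h3⟩
        have hpY : ¬ p ∣ Nat.card Y := fun h => hpN (h.trans (card_dvd_of_le inf_le_left))
        obtain ⟨T, hTY, hT, hTz, hTi⟩ := cop_sylow (q := q) Y hYf hpY z hz hYz
        have hSY : S ≤ Y := le_inf hSN le_normalizer
        have hTf : Finite T := Finite.of_injective (inclusion hTY) (inclusion_injective hTY)
        -- S ≤ T
        have hSTp : IsPGroup q (S ⊔ T : Subgroup G) := by
          apply IsPGroup.to_sup_of_normal_left' hS hT
          exact hTY.trans inf_le_right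
        have hST : S ≤ T := by
          have h1 : T.relIndex (S ⊔ T) ∣ T.relIndex Y :=
            Dvd.intro _ (relIndex_mul_relIndex T (S ⊔ T) Y le_sup_right (sup_le hSY hTY))
          have h1f : Finite (S ⊔ T : Subgroup G) := Finite.of_injective
            (inclusion (sup_le hSY hTY)) (inclusion_injective _)
          have h2 : T.relIndex (S ⊔ T) = 1 := by
            obtain ⟨k, hk⟩ := (hSTp.exists_card_eq)
            have h3 : T.relIndex (S ⊔ T) ∣ q ^ k := by
              rw [← hk]
              exact relIndex_dvd_card _ _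
            obtain ⟨j, -, hj⟩ := (Nat.dvd_prime_pow hq.out).1 h3
            rcases Nat.eq_zero_or_pos j with h0 | h0
            · rw [hj, h0, pow_zero]
            · exfalso
              apply hTi
              refine dvd_trans ?_ h1
              rw [hj]
              exact dvd_pow_self q h0.ne'
          rw [relIndex_eq_one] at h2
          exact le_sup_left.trans h2
        have hlt : S < T := by
          refine lt_of_le_of_ne hST ?_
          intro he
          -- S is a Sylow subgroup of Y, hence of N
          obtain ⟨S', hS'N, hS', hS'i, hSS', -⟩ := common (p := q) N S S hSN hSN hS hS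
          have hS'f : Finite S' := Finite.of_injective (inclusion hS'N)
            (inclusion_injective hS'N)
          have hne : S < S' := by
            refine lt_of_le_of_ne hSS' ?_
            intro h
            rw [h] at hd
            exact hS'i hd
          obtain ⟨x, hxS', hxS, hx⟩ := exists_growth S S' hS' hne
          have h1 : S.relIndex (S' ⊓ Y) ∣ S.relIndex Y :=
            Dvd.intro _ (relIndex_mul_relIndex S (S' ⊓ Y) Y (le_inf hSS' hSY) inf_le_right)
          have h1f : Finite (S' ⊓ Y : Subgroup G) := Finite.of_injective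
            (inclusion (inf_le_left : S' ⊓ Y ≤ S')) (inclusion_injective _)
          have h2 : S.relIndex (S' ⊓ Y) = 1 := by
            obtain ⟨k, hk⟩ := (hS'.to_le (inf_le_left : S' ⊓ Y ≤ S')).exists_card_eq
            have h3 : S.relIndex (S' ⊓ Y) ∣ q ^ k := by
              rw [← hk]
              exact relIndex_dvd_card _ _
            obtain ⟨j, -, hj⟩ := (Nat.dvd_prime_pow hq.out).1 h3
            rcases Nat.eq_zero_or_pos j with h0 | h0
            · rw [hj, h0, pow_zero]
            · exfalso
              apply hTi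
              rw [← he]
              refine dvd_trans ?_ h1
              rw [hj]
              exact dvd_pow_self q h0.ne'
          rw [relIndex_eq_one] at h2
          apply hxS
          apply h2
          exact ⟨hxS', hS'N hxS', mem_normalizer_iff.2 hx⟩
        have hc : Nat.card S < Nat.card T := Set.Finite.card_lt_card (Set.toFinite _) hlt
        exact ih T (hTY.trans inf_le_left) hT hTz (hST hwS) (by omega)
      · exact ⟨S, hSN, hS, hSz, hwS, hd⟩
  apply key (Nat.card N) (zpowers w) (by rw [zpowers_le]; exact hwN) ?_ ?_ (mem_zpowers w)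
    (by omega)
  · apply IsPGroup.of_card (n := 1)
    rw [Nat.card_zpowers, hw, pow_one]
  · intro t ht
    obtain ⟨j, rfl⟩ := mem_zpowers_iff.1 ht
    have h1 : Commute z w := hwz
    have h2 : z * w ^ j = w ^ j * z := h1.zpow_right j
    rw [h2, mul_inv_cancel_right]
    exact zpow_mem (mem_zpowers w) j

end Pool.Agent.Helper4.BM
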