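import Pool.Agent.Helper4.BM.Iso
import Pool.Agent.Helper21.BP.Fin

/-!
A periodic group with a finite core free maximal subgroup with a central involution is finite
(adapted from Pool.Agent.Helper21.BP.Even).
-/

namespace Pool.Agent.Helper4.BM

open Subgroup Pointwise

variable {G : Type*} [Group G] {M : Subgroup G}

theorem inverted_or (ht : ∀ g : G, IsOfFinOrder g) {i : G} (hi2 : i * i = 1)
    (hcen : ∀ g, g * i = i * g → g ∈ M) (g : G) :
    (∃ c ∈ M, ∃ d, g = c * d ∧ i * d * i = d⁻¹) ∨ ∃ z ∈ M, z ≠ 1 ∧ g * z * g⁻¹ ∈ M := by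
  have hii : i⁻¹ = i := inv_eq_of_mul_eq_one_left hi2
  obtain ⟨v, hv⟩ : ∃ v, v = g⁻¹ * i * g := ⟨_, rfl⟩
  have hv2 : v * v = 1 := by
    rw [hv]
    calc g⁻¹ * i * g * (g⁻¹ * i * g) = g⁻¹ * (i * i) * g := by group
      _ = 1 := by rw [hi2]; group
  have hvi : v⁻¹ = v := inv_eq_of_mul_eq_one_left hv2
  obtain ⟨u, hu⟩ : ∃ u, u = i * v := ⟨_, rfl⟩
  have hiu : i * u * i⁻¹ = u⁻¹ := by
    rw [hu, mul_inv_rev, hvi, hii, ← mul_assoc, hi2, one_mul]
  have hvu : v * u * v⁻¹ = u⁻¹ := by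
    rw [hu, mul_inv_rev, hvi, hii]
    rw [mul_assoc, mul_assoc, hv2, mul_one]
  have hipow : ∀ k : ℕ, i * u ^ k * i⁻¹ = (u ^ k)⁻¹ := by
    intro k
    rw [← conj_pow, hiu, inv_pow]
  have hvpow : ∀ k : ℕ, v * u ^ k * v⁻¹ = (u ^ k)⁻¹ := by
    intro k
    rw [← conj_pow, hvu, inv_pow]
  have hfo : IsOfFinOrder u := ht u
  have hpos := hfo.orderOf_pos
  rcases Nat.even_or_odd (orderOf u) with he | ho
  · right
    obtain ⟨m, hm⟩ := he
    obtain ⟨z, hz⟩ : ∃ z, z = u ^ m := ⟨_, rfl⟩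
    have hz2 : z * z = 1 := by
      rw [hz, ← pow_add, ← hm, pow_orderOf_eq_one]
    have hz1 : z ≠ 1 := by
      intro h1
      rw [hz] at h1
      have := Nat.le_of_dvd (by omega) (orderOf_dvd_of_pow_eq_one h1)
      omega
    have hzi : z⁻¹ = z := inv_eq_of_mul_eq_one_left hz2
    have h1 : i * z = z * i := by
      have := hipow m
      rw [← hz, hzi] at this
      calc i * z = i * z * i⁻¹ * i := by group
        _ = z * i := by rw [this]
    have h2 : v * z = z * v := by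
      have := hvpow m
      rw [← hz, hzi] at this
      calc v * z = v * z * v⁻¹ * v := by group
        _ = z * v := by rw [this]
    refine ⟨z, hcen _ h1.symm, hz1, ?_⟩
    apply hcen
    have : g * (z * v) * g⁻¹ = g * (v * z) * g⁻¹ := by rw [h2]
    rw [hv] at this
    simpa [mul_assoc] using this
  · left
    obtain ⟨m, hm⟩ := ho
    obtain ⟨d, hd⟩ : ∃ d, d = u ^ (m + 1) := ⟨_, rfl⟩
    have hdd : d * d = u := by
      rw [hd, ← pow_add]
      have : m + 1 + (m + 1) = orderOf u + 1 := by omega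
      rw [this, pow_succ, pow_orderOf_eq_one, one_mul]
    have hid : i * d * i⁻¹ = d⁻¹ := by rw [hd]; exact hipow (m + 1)
    refine ⟨g * d⁻¹, ?_, d, by group, by rw [← hid, hii]⟩
    apply hcen
    -- `d⁻¹ i d = v`
    have h1 : d⁻¹ * i * d = v := by
      have h2 : i * d = d⁻¹ * i := by
        calc i * d = i * d * i⁻¹ * i := by group
          _ = d⁻¹ * i := by rw [hid]
      have h3 : d⁻¹ * i * d = (d * d)⁻¹ * i := by
        rw [mul_assoc, h2, mul_inv_rev, mul_assoc]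
      rw [h3, hdd, hu, mul_inv_rev, hvi, hii, mul_assoc, hi2, mul_one]
    have h4 : g⁻¹ * i * g = d⁻¹ * i * d := by rw [h1, hv]
    have h5 : g * (g⁻¹ * i * g) * d⁻¹ = g * (d⁻¹ * i * d) * d⁻¹ := by rw [h4]
    have h6 : i * (g * d⁻¹) = g * d⁻¹ * i := by simpa [mul_assoc] using h5
    exact h6.symm

/-- Either there is a nontrivial element whose centraliser has finite index, or the group is
finite. -/
theorem exists_fc (ht : ∀ g : G, IsOfFinOrder g) (hfin : Finite M) {i : G} (hi2 : i * i = 1)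
    (hcom : ∀ m ∈ M, m * i = i * m) (hcen : ∀ g, g * i = i * g → g ∈ M) :
    (∃ v : G, (centralizer ({v} : Set G)).FiniteIndex ∧ v ≠ 1) ∨ Finite G := by
  classical
  by_cases hall : ∀ v : G, (centralizer ({v} : Set G)).FiniteIndex → v = 1
  swap
  · push Not at hall
    obtain ⟨v, hv, hv1⟩ := hall
    exact Or.inl ⟨v, hv, hv1⟩
  right
  haveI : Fintype M := Fintype.ofFinite M
  -- representatives of the cosets of centralisers
  let r : M → M → G := fun z m => if hx : ∃ x : G, x * z * x⁻¹ = m then hx.choose else 1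
  have hr : ∀ (z m : M) (x : G), x * z * x⁻¹ = m →
      (r z m)⁻¹ * x ∈ centralizer ({(z : G)} : Set G) := by
    intro z m x hx
    have hex : ∃ x : G, x * z * x⁻¹ = m := ⟨x, hx⟩
    have h1 : (r z m) * z * (r z m)⁻¹ = m := by
      simp only [r, dif_pos hex]
      exact hex.choose_spec
    rw [mem_centralizer_iff]
    rintro _ rfl
    have h2 : x * (z : G) * x⁻¹ = (r z m) * z * (r z m)⁻¹ := by rw [hx, h1]
    calc (z : G) * ((r z m)⁻¹ * x) = (r z m)⁻¹ * ((r z m) * z * (r z m)⁻¹) * x := by group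
      _ = (r z m)⁻¹ * (x * (z : G) * x⁻¹) * x := by rw [h2]
      _ = (r z m)⁻¹ * x * z := by group
  -- inverted elements lie in `M`
  have hinv : ∀ y : G, i * y * i = y⁻¹ → y ∈ M := by
    intro y hy
    let xc : M → G := fun c => if hx : ∃ x : G, x⁻¹ * (y⁻¹ * (c : G)⁻¹) * x = c * y⁻¹ then
      hx.choose else 1
    have hxc : ∀ c : M, ∀ x : G, x⁻¹ * (y⁻¹ * (c : G)⁻¹) * x = c * y⁻¹ →
        (xc c)⁻¹ * (y⁻¹ * (c : G)⁻¹) * xc c = c * y⁻¹ := by
      intro c x hx
      have hex : ∃ x : G, x⁻¹ * (y⁻¹ * (c : G)⁻¹) * x = c * y⁻¹ := ⟨x, hx⟩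
      simp only [xc, dif_pos hex]
      exact hex.choose_spec
    let ι := ({z : M // z ≠ 1} × M) ⊕ ((M × {z : M // z ≠ 1} × M) ⊕ (M × M))
    let H : ι → Subgroup G := fun k => match k with
      | Sum.inl (z, _) => centralizer {((z : M) : G)}
      | Sum.inr (Sum.inl (_, z, _)) => centralizer {y * ((z : M) : G) * y⁻¹}
      | Sum.inr (Sum.inr (_, c)) => centralizer {(c : G) * y⁻¹}
    let gg : ι → G := fun k => match k with
      | Sum.inl (z, m) => r z m
      | Sum.inr (Sum.inl (c0, z, m)) => (c0 : G) * r z m * y⁻¹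
      | Sum.inr (Sum.inr (c0, c)) => (c0 : G) * xc c
    have hcov : ⋃ k ∈ (Finset.univ : Finset ι), gg k • ((H k : Subgroup G) : Set G) =
        Set.univ := by
      rw [Set.eq_univ_iff_forall]
      intro g
      rw [Set.mem_iUnion₂]
      rcases inverted_or ht hi2 hcen g with hA | ⟨z, hz, hz1, hgz⟩
      swap
      · refine ⟨Sum.inl (⟨⟨z, hz⟩, fun h => hz1 (congrArg Subtype.val h)⟩, ⟨_, hgz⟩),
          Finset.mem_univ _, ?_⟩
        rw [mem_leftCoset_iff]
        exact hr ⟨z, hz⟩ ⟨_, hgz⟩ g rfl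
      obtain ⟨c0, hc0, x, hgx, hx⟩ := hA
      rcases inverted_or ht hi2 hcen (x * y) with hA | ⟨z, hz, hz1, hgz⟩
      swap
      · refine ⟨Sum.inr (Sum.inl (⟨c0, hc0⟩, ⟨⟨z, hz⟩, fun h => hz1 (congrArg Subtype.val h)⟩,
          ⟨_, hgz⟩)), Finset.mem_univ _, ?_⟩
        rw [mem_leftCoset_iff]
        have h1 := hr ⟨z, hz⟩ ⟨_, hgz⟩ (x * y) rfl
        simp only [gg, H]
        rw [SetLike.mem_coe, mem_centralizer_iff]
        rintro _ rfl
        rw [mem_centralizer_iff] at h1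
        have h2 := h1 z rfl
        set r0 := r ⟨z, hz⟩ ⟨_, hgz⟩ with hr0
        calc y * z * y⁻¹ * ((c0 * r0 * y⁻¹)⁻¹ * g) = y * (z * (r0⁻¹ * (x * y))) * y⁻¹ := by
              rw [hgx]; group
          _ = y * (r0⁻¹ * (x * y) * z) * y⁻¹ := by rw [h2]
          _ = (c0 * r0 * y⁻¹)⁻¹ * g * (y * z * y⁻¹) := by rw [hgx]; group
      obtain ⟨c, hc, x', hxx', hx'⟩ := hA
      have hci : i * c = c * i := (hcom c hc).symm
      -- `x⁻¹ y⁻¹ = c x'⁻¹`
      have h1 : x⁻¹ * y⁻¹ = c * x'⁻¹ := by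
        rw [← hx, ← hy, ← hx']
        calc i * x * i * (i * y * i) = i * x * (i * i) * y * i := by group
          _ = i * (x * y) * i := by rw [hi2]; group
          _ = i * (c * x') * i := by rw [hxx']
          _ = (i * c) * x' * i := by group
          _ = (c * i) * x' * i := by rw [hci]
          _ = c * (i * x' * i) := by group
      have h2 : x'⁻¹ = y⁻¹ * x⁻¹ * c := by
        have : x' = c⁻¹ * (x * y) := by rw [hxx']; group
        rw [this]; group
      have h3 : x⁻¹ * (y⁻¹ * c⁻¹) * x = c * y⁻¹ := by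
        have : x⁻¹ * y⁻¹ = c * (y⁻¹ * x⁻¹ * c) := by rw [h1, h2]
        calc x⁻¹ * (y⁻¹ * c⁻¹) * x = (x⁻¹ * y⁻¹) * c⁻¹ * x := by group
          _ = (c * (y⁻¹ * x⁻¹ * c)) * c⁻¹ * x := by rw [this]
          _ = c * y⁻¹ := by group
      have h4 := hxc ⟨c, hc⟩ x h3
      simp only at h4
      refine ⟨Sum.inr (Sum.inr (⟨c0, hc0⟩, ⟨c, hc⟩)), Finset.mem_univ _, ?_⟩
      rw [mem_leftCoset_iff]
      simp only [gg, H]
      rw [SetLike.mem_coe, mem_centralizer_iff]
      intro w hw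
      rw [Set.mem_singleton_iff] at hw
      rw [hw]
      set x0 := xc ⟨c, hc⟩ with hx0
      have h5 : (c0 * x0)⁻¹ * g = x0⁻¹ * x := by rw [hgx]; group
      rw [h5]
      have h6 : x * (c * y⁻¹) * x⁻¹ = y⁻¹ * c⁻¹ := by rw [← h3]; group
      have h7 : x0 * (c * y⁻¹) * x0⁻¹ = y⁻¹ * c⁻¹ := by rw [← h4]; group
      calc c * y⁻¹ * (x0⁻¹ * x) = x0⁻¹ * (x0 * (c * y⁻¹) * x0⁻¹) * x := by group
        _ = x0⁻¹ * (x * (c * y⁻¹) * x⁻¹) * x := by rw [h7, h6]
        _ = x0⁻¹ * x * (c * y⁻¹) := by group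
    obtain ⟨k, -, hk⟩ := Subgroup.exists_finiteIndex_of_leftCoset_cover hcov
    rcases k with ⟨z, m⟩ | ⟨c0, z, m⟩ | ⟨c0, c⟩
    · exfalso
      apply z.2
      exact Subtype.ext (hall _ hk)
    · exfalso
      apply z.2
      have h1 := hall _ hk
      have h2 : ((z : M) : G) = 1 := by
        have h3 : y⁻¹ * (y * ((z : M) : G) * y⁻¹) * y = ((z : M) : G) := by group
        rw [← h3, h1]
        group
      exact Subtype.ext h2
    · have h1 := hall _ hk
      have h2 : (c : G) = y := mul_inv_eq_one.1 h1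
      rw [← h2]
      exact c.2
  -- second covering
  let ι := M ⊕ ({z : M // z ≠ 1} × M)
  let H : ι → Subgroup G := fun k => match k with
    | Sum.inl _ => ⊥
    | Sum.inr (z, _) => centralizer {((z : M) : G)}
  let gg : ι → G := fun k => match k with
    | Sum.inl m => (m : G)
    | Sum.inr (z, m) => r z m
  have hcov : ⋃ k ∈ (Finset.univ : Finset ι), gg k • ((H k : Subgroup G) : Set G) =
      Set.univ := by
    rw [Set.eq_univ_iff_forall]
    intro g
    rw [Set.mem_iUnion₂]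
    rcases inverted_or ht hi2 hcen g with hA | ⟨z, hz, hz1, hgz⟩
    · obtain ⟨c, hc, d, hgd, hd⟩ := hA
      refine ⟨Sum.inl ⟨g, by rw [hgd]; exact M.mul_mem hc (hinv d hd)⟩, Finset.mem_univ _, ?_⟩
      rw [mem_leftCoset_iff]
      simp only [gg, H]
      rw [inv_mul_cancel]
      exact one_mem _
    · refine ⟨Sum.inr (⟨⟨z, hz⟩, fun h => hz1 (congrArg Subtype.val h)⟩, ⟨_, hgz⟩),
        Finset.mem_univ _, ?_⟩
      rw [mem_leftCoset_iff]
      exact hr ⟨z, hz⟩ ⟨_, hgz⟩ g rfl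
  obtain ⟨k, -, hk⟩ := Subgroup.exists_finiteIndex_of_leftCoset_cover hcov
  rcases k with m | ⟨z, m⟩
  · have hb : (⊥ : Subgroup G).FiniteIndex := hk
    exact Helper21.BP.finite_of_finite_finiteIndex (⊥ : Subgroup G)
  · exfalso
    apply z.2
    exact Subtype.ext (hall _ hk)

theorem even_gen (ht : ∀ g : G, IsOfFinOrder g) (hfin : Finite M) (hmax : IsCoatom M)
    (hcore : M.normalCore = ⊥) {i : G} (hi : i ∈ M) (hi1 : i ≠ 1) (hi2 : i * i = 1)
    (hcom : ∀ m ∈ M, m * i = i * m) : Finite G := by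
  rcases exists_fc ht hfin hi2 hcom (cen_max hmax hcore hi hi1 hcom) with ⟨v, hv, hv1⟩ | h
  swap
  · exact h
  haveI hfinV := Helper21.BP.dietzmann ht v hv
  set V := normalClosure ({v} : Set G) with hV
  haveI : V.Normal := normalClosure_normal
  have hvV : v ∈ V := subset_normalClosure rfl
  have hnle : ¬ V ≤ M := by
    intro hle
    have h1 : V ≤ M.normalCore := normal_le_normalCore.2 hle
    rw [hcore] at h1
    exact hv1 (mem_bot.1 (h1 hvV))
  have htop : V ⊔ M = ⊤ := by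
    rcases (hmax.le_iff).1 (le_sup_right : M ≤ V ⊔ M) with h1 | h1
    · exact h1
    · exfalso
      apply hnle
      rw [← h1]
      exact le_sup_left
  have hset : ((V : Set G) * (M : Set G)) = Set.univ := by
    rw [← Subgroup.normal_mul, htop, coe_top]
  have hfs : (Set.univ : Set G).Finite := by
    rw [← hset]
    exact (Set.toFinite (V : Set G)).mul (Set.toFinite (M : Set G))
  exact Set.finite_univ_iff.1 hfs

end Pool.Agent.Helper4.BM
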