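import Pool.Agent.Helper4.BM.Main
import Pool.Agent.Helper4.BM.Even
import Pool.Agent.Helper21.BP.Cyc
import Pool.Agent.Helper21.BP.NoRank
import Pool.Agent.Helper21.BP.Three

/-!
Consequences of the splitting for a core free maximal subgroup.
-/

namespace Pool.Agent.Helper4.BM

open Subgroup

variable {G : Type*} [Group G] {M : Subgroup G}

theorem exists_not_mem (hmax : IsCoatom M) : ∃ x, x ∉ M := by
  by_contra hall
  push Not at hall
  apply hmax.1
  rw [eq_top_iff]
  intro g _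
  exact hall g

theorem fg_of_max (hmax : IsCoatom M) (hfin : Finite M) : Group.FG G := by
  obtain ⟨x, hx⟩ := exists_not_mem hmax
  have htop : closure ((M : Set G) ∪ {x}) = ⊤ := by
    have hle : M ≤ closure ((M : Set G) ∪ {x}) := fun m hm => subset_closure (Or.inl hm)
    rcases (hmax.le_iff).1 hle with h1 | h1
    · exact h1
    · exfalso
      apply hx
      rw [← h1]
      exact subset_closure (Or.inr rfl)
  have hf : ((M : Set G) ∪ {x}).Finite := (Set.toFinite _).union (Set.finite_singleton x)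
  exact ⟨⟨hf.toFinset, by rw [Set.Finite.coe_toFinset]; exact htop⟩⟩

theorem Compl.finiteIndex {p : ℕ} {z : G} {F : Subgroup G} (h : Compl M p z F)
    (hfin : Finite M) : F.FiniteIndex := by
  haveI := h.normal
  have hsurj : Function.Surjective (fun m : M => ((m : G) : G ⧸ F)) := by
    intro q
    obtain ⟨g, rfl⟩ := QuotientGroup.mk_surjective q
    obtain ⟨f, hf, m, hm, rfl⟩ := h.top g
    refine ⟨⟨m, hm⟩, ?_⟩
    simp only
    rw [QuotientGroup.eq]
    have := h.normal.conj_mem f hf m⁻¹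
    have h2 : m⁻¹ * (f * m) = m⁻¹ * f * m⁻¹⁻¹ := by group
    rw [h2]
    exact this
  haveI : Finite (G ⧸ F) := Finite.of_surjective _ hsurj
  exact finiteIndex_of_finite_quotient

/-- An element of order three. -/
theorem three_gen (ht : ∀ g : G, IsOfFinOrder g) (hmax : IsCoatom M) (hfin : Finite M) {a : G}
    (hpa : orderOf a = 3) {F : Subgroup G} (hC : Compl M 3 a F) : Finite G := by
  haveI hFn := hC.normal
  haveI hfi := hC.finiteIndex hfin
  have hF := hC.mem
  have ha3 : a * a * a = 1 := by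
    have := pow_orderOf_eq_one a
    rw [hpa] at this
    rw [pow_succ, pow_two] at this
    exact this
  have hai : a⁻¹ = a * a := (eq_inv_of_mul_eq_one_left ha3).symm
  have hcube : ∀ f ∈ F, f * a * (f * a) * (f * a) = 1 := by
    intro f hf
    obtain ⟨x, rfl⟩ := (hF f).1 hf
    calc x * a * x⁻¹ * a⁻¹ * a * (x * a * x⁻¹ * a⁻¹ * a) * (x * a * x⁻¹ * a⁻¹ * a) =
        x * (a * a * a) * x⁻¹ := by group
      _ = 1 := by rw [ha3]; group
  have hcube' : ∀ f ∈ F, ∀ g ∈ F, f * (g * a) * (f * (g * a)) * (f * (g * a)) = 1 := by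
    intro f hf g hg
    have := hcube (f * g) (F.mul_mem hf hg)
    rw [← this]; group
  have hcomm1 : ∀ f ∈ F, ∀ g ∈ F,
      f * ((g * a) * f * (g * a)⁻¹) = (g * a) * f * (g * a)⁻¹ * f := by
    intro f hf g hg
    apply Helper21.BP.comm_of_cubes
    · have := hcube g hg
      rw [← this]
    · exact hcube' f hf g hg
    · exact hcube' f⁻¹ (F.inv_mem hf) g hg
  have hcomm2 : ∀ f ∈ F, ∀ g ∈ F,
      f * ((g * a)⁻¹ * f * (g * a)) = (g * a)⁻¹ * f * (g * a) * f := by
    intro f hf g hg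
    have := hcomm1 f hf g hg
    have h1 : (g * a)⁻¹ * (f * ((g * a) * f * (g * a)⁻¹)) * (g * a) =
      (g * a)⁻¹ * ((g * a) * f * (g * a)⁻¹ * f) * (g * a) := by rw [this]
    have h2 : (g * a)⁻¹ * (f * ((g * a) * f * (g * a)⁻¹)) * (g * a) =
      (g * a)⁻¹ * f * (g * a) * f := by group
    have h3 : (g * a)⁻¹ * ((g * a) * f * (g * a)⁻¹ * f) * (g * a) =
      f * ((g * a)⁻¹ * f * (g * a)) := by group
    rw [← h2, ← h3, h1]
  have hprod : ∀ f ∈ F, a * f * a⁻¹ * (a⁻¹ * f * a) = f⁻¹ := by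
    intro f hf
    have h1 := hcube f hf
    have h2 : f * (a * f * a⁻¹ * (a⁻¹ * f * a)) = 1 := by
      calc f * (a * f * a⁻¹ * (a⁻¹ * f * a)) = f * a * f * (a⁻¹ * a⁻¹) * f * a := by group
        _ = f * a * f * (a * (a * a * a)) * f * a := by rw [hai]; group
        _ = f * a * (f * a) * (f * a) := by rw [ha3]; group
        _ = 1 := h1
    exact (inv_eq_of_mul_eq_one_right h2).symm
  have hengel : ∀ f ∈ F, ∀ k ∈ F, f * (k * f * k⁻¹) = k * f * k⁻¹ * f := by
    intro f hf k hk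
    have c1 := hcomm1 f hf k hk
    have hk2 : a * k⁻¹ * a⁻¹ ∈ F := hFn.conj_mem _ (F.inv_mem hk) a
    have c2 := hcomm2 f hf _ hk2
    have e1 : (a * k⁻¹ * a⁻¹ * a)⁻¹ * f * (a * k⁻¹ * a⁻¹ * a) = k * (a⁻¹ * f * a) * k⁻¹ := by
      group
    rw [e1] at c2
    have e2 : (k * a) * f * (k * a)⁻¹ = k * (a * f * a⁻¹) * k⁻¹ := by group
    rw [e2] at c1
    have c3 : f * (k * f⁻¹ * k⁻¹) = k * f⁻¹ * k⁻¹ * f := by
      rw [← hprod f hf]
      calc f * (k * (a * f * a⁻¹ * (a⁻¹ * f * a)) * k⁻¹) =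
          (f * (k * (a * f * a⁻¹) * k⁻¹)) * (k * (a⁻¹ * f * a) * k⁻¹) := by group
        _ = (k * (a * f * a⁻¹) * k⁻¹ * f) * (k * (a⁻¹ * f * a) * k⁻¹) := by rw [c1]
        _ = k * (a * f * a⁻¹) * k⁻¹ * (f * (k * (a⁻¹ * f * a) * k⁻¹)) := by group
        _ = k * (a * f * a⁻¹) * k⁻¹ * (k * (a⁻¹ * f * a) * k⁻¹ * f) := by rw [c2]
        _ = k * (a * f * a⁻¹ * (a⁻¹ * f * a)) * k⁻¹ * f := by group
    have c4 : (k * f * k⁻¹) * (f * (k * f⁻¹ * k⁻¹)) * (k * f * k⁻¹) =
        (k * f * k⁻¹) * (k * f⁻¹ * k⁻¹ * f) * (k * f * k⁻¹) := by rw [c3]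
    have c5 : (k * f * k⁻¹) * (f * (k * f⁻¹ * k⁻¹)) * (k * f * k⁻¹) = k * f * k⁻¹ * f := by group
    have c6 : (k * f * k⁻¹) * (k * f⁻¹ * k⁻¹ * f) * (k * f * k⁻¹) = f * (k * f * k⁻¹) := by
      group
    rw [← c5, ← c6, c4]
  haveI := fg_of_max hmax hfin
  haveI : Group.FG F := inferInstance
  obtain ⟨S, hS⟩ := (inferInstance : Group.FG F).1
  haveI : Finite F := by
    apply Helper21.BP.finite_of_engel S.card S le_rfl hS
      (fun f => by
        obtain ⟨n, hn, hng⟩ := isOfFinOrder_iff_pow_eq_one.1 (ht f)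
        exact isOfFinOrder_iff_pow_eq_one.2 ⟨n, hn, Subtype.ext hng⟩)
    intro f k
    apply Subtype.ext
    push_cast
    exact hengel _ f.2 _ k.2
  exact Helper21.BP.finite_of_finite_finiteIndex F

/-- `M` is not of prime order. -/
theorem prime_gen (hmax : IsCoatom M) (hfin : Finite M) {a : G}
    (ha : Good M (Nat.card M) a)
    (hK : ∀ x : G, Finite (closure ({a, x * a * x⁻¹} : Set G))) : Finite G := by
  obtain ⟨x, hx⟩ := exists_not_mem hmax
  have h1 : M ≤ closure ({a, x * a * x⁻¹} : Set G) := by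
    have h2 : M = zpowers a := by
      apply (eq_of_le_of_card_ge _ _).symm
      · rw [zpowers_le]; exact ha.mem
      · rw [Nat.card_zpowers, ha.ord]
    rw [h2, zpowers_le]
    exact subset_closure (by simp)
  rcases hmax.le_iff.1 h1 with h2 | h2
  · have := hK x
    rw [h2] at this
    exact (Subgroup.topEquiv (G := G)).toEquiv.finite_iff.1 this
  · exfalso
    apply hx
    apply ha.iso
    rw [← h2]
    exact subset_closure (by simp)

/-- The centre has no two independent elements of order `p` if all pairs of elements of prime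
order generate finite groups. -/
theorem rank_gen (hmax : IsCoatom M) {p : ℕ} (hp : p.Prime)
    {F : Subgroup G} {a b : G} (hC : Compl M p a F) (ha : Good M p a)
    (hall : ∀ j : ℕ, Good M p (a * b ^ j)) (hb : Good M p b)
    (hK : ∀ x : G, Finite (closure ({a, x * b * x⁻¹} : Set G))) : False := by
  haveI : Fact p.Prime := ⟨hp⟩
  haveI hFn := hC.normal
  obtain ⟨x, hx⟩ := exists_not_mem hmax
  set K : Subgroup G := closure ({a, x * b * x⁻¹} : Set G) with hKdef
  haveI hKf : Finite K := hK x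
  have haK : a ∈ K := subset_closure (by simp)
  have hbK : x * b * x⁻¹ ∈ K := subset_closure (by simp)
  have hap : a ^ p = 1 := by rw [← ha.ord, pow_orderOf_eq_one]
  have hbp : b ^ p = 1 := by rw [← hb.ord, pow_orderOf_eq_one]
  have hab : a * b = b * a := hb.cen a ha.mem
  -- a Sylow subgroup containing `a`
  have hza : IsPGroup p (zpowers (⟨a, haK⟩ : K)) := by
    apply IsPGroup.of_card (n := 1)
    rw [Nat.card_zpowers, Subgroup.orderOf_mk, ha.ord, pow_one]
  obtain ⟨P, hP⟩ := hza.exists_le_sylow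
  have haP : (⟨a, haK⟩ : K) ∈ (P : Subgroup K) := hP (mem_zpowers _)
  -- elements of `K` modulo `F`
  have hKF : ∀ k ∈ K, ∃ f ∈ F, ∃ i j : ℕ, k = f * (a ^ i * b ^ j) := by
    have hc : Commute a b := hab
    let K' : Subgroup G :=
      { carrier := {k | ∃ f ∈ F, ∃ i j : ℕ, k = f * (a ^ i * b ^ j)}
        mul_mem' := by
          rintro _ _ ⟨f, hf, i, j, rfl⟩ ⟨f', hf', i', j', rfl⟩
          refine ⟨f * ((a ^ i * b ^ j) * f' * (a ^ i * b ^ j)⁻¹),
            F.mul_mem hf (hFn.conj_mem _ hf' _), i + i', j + j', ?_⟩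
          have h1 : a ^ (i + i') * b ^ (j + j') = (a ^ i * b ^ j) * (a ^ i' * b ^ j') := by
            rw [pow_add, pow_add, mul_assoc, mul_assoc, ← mul_assoc (b ^ j),
              ← ((hc.pow_left i').pow_right j).eq, mul_assoc]
          rw [h1]
          group
        one_mem' := ⟨1, F.one_mem, 0, 0, by simp⟩
        inv_mem' := by
          rintro _ ⟨f, hf, i, j, rfl⟩
          have hp1 : p - 1 + 1 = p := Nat.sub_add_cancel hp.one_lt.le
          have e1 : a ^ ((p - 1) * i) = (a ^ i)⁻¹ := by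
            rw [eq_inv_iff_mul_eq_one, ← pow_add]
            have : (p - 1) * i + i = p * i := by
              conv_rhs => rw [← hp1]
              ring
            rw [this, pow_mul, hap, one_pow]
          have e2 : b ^ ((p - 1) * j) = (b ^ j)⁻¹ := by
            rw [eq_inv_iff_mul_eq_one, ← pow_add]
            have : (p - 1) * j + j = p * j := by
              conv_rhs => rw [← hp1]
              ring
            rw [this, pow_mul, hbp, one_pow]
          refine ⟨(a ^ i * b ^ j)⁻¹ * f⁻¹ * (a ^ i * b ^ j), ?_, (p - 1) * i, (p - 1) * j, ?_⟩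
          · have := hFn.conj_mem _ (F.inv_mem hf) (a ^ i * b ^ j)⁻¹
            rwa [inv_inv] at this
          · have h3 : a ^ ((p - 1) * i) * b ^ ((p - 1) * j) = (a ^ i * b ^ j)⁻¹ := by
              rw [e1, e2, mul_inv_rev, ((hc.pow_left i).pow_right j).inv_inv.eq]
            rw [h3]
            group }
    have hle : K ≤ K' := by
      rw [hKdef, closure_le]
      intro g hg
      rcases hg with h | h
      · rw [h]; exact ⟨1, F.one_mem, 1, 0, by simp⟩
      · rw [Set.mem_singleton_iff] at h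
        rw [h]
        refine ⟨x * b * x⁻¹ * b⁻¹, ?_, 0, 1, by simp⟩
        obtain ⟨f, hf, m, hm, rfl⟩ := hC.top x
        have h1 : f * m * b * (f * m)⁻¹ * b⁻¹ = f * (b * f⁻¹ * b⁻¹) := by
          have h2 := hb.cen m hm
          calc f * m * b * (f * m)⁻¹ * b⁻¹ = f * (m * b) * m⁻¹ * f⁻¹ * b⁻¹ := by group
            _ = f * (b * m) * m⁻¹ * f⁻¹ * b⁻¹ := by rw [h2]
            _ = _ := by group
        rw [h1]
        exact F.mul_mem hf (hFn.conj_mem _ (F.inv_mem hf) b)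
    exact hle
  -- the Sylow subgroup lies in `M`
  have hcomm : ∀ u ∈ (P : Subgroup K), (u : G) ∈ M := by
    intro u hu
    -- the commutator of `a` and `u` is a `p`-element of `F`
    obtain ⟨f, hf, i, j, hfu⟩ := hKF u u.2
    have h1 : ((⟨a, haK⟩ : K) * u * (⟨a, haK⟩ : K)⁻¹ * u⁻¹) ∈ (P : Subgroup K) :=
      mul_mem (mul_mem (mul_mem haP hu) (inv_mem haP)) (inv_mem hu)
    obtain ⟨k, hk⟩ := P.isPGroup' ⟨_, h1⟩
    have hk' : (a * (u : G) * a⁻¹ * (u : G)⁻¹) ^ p ^ k = 1 :=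
      congrArg (fun t : (P : Subgroup K) => ((t : K) : G)) hk
    have h2 : a * (u : G) * a⁻¹ * (u : G)⁻¹ ∈ F := by
      have h3 : Commute a (a ^ i * b ^ j) :=
        (Commute.refl a |>.pow_right i).mul_right ((show Commute a b from hab).pow_right j)
      have h4 : a * (u : G) * a⁻¹ * (u : G)⁻¹ = (a * f * a⁻¹) * f⁻¹ := by
        rw [hfu]
        calc a * (f * (a ^ i * b ^ j)) * a⁻¹ * (f * (a ^ i * b ^ j))⁻¹ =
            a * f * ((a ^ i * b ^ j) * a⁻¹) * (a ^ i * b ^ j)⁻¹ * f⁻¹ := by group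
          _ = a * f * (a⁻¹ * (a ^ i * b ^ j)) * (a ^ i * b ^ j)⁻¹ * f⁻¹ := by
            rw [h3.inv_left.eq]
          _ = _ := by group
      rw [h4]
      exact F.mul_mem (hFn.conj_mem _ hf a) (F.inv_mem hf)
    have h5 := ppow_one (hC.cop _ h2) hk'
    apply ha.comm
    have h6 := mul_inv_eq_one.1 h5
    exact (mul_inv_eq_iff_eq_mul.1 h6).symm
  -- a conjugate of `x b x⁻¹` lies in `P`
  have hzb : IsPGroup p (zpowers (⟨x * b * x⁻¹, hbK⟩ : K)) := by
    apply IsPGroup.of_card (n := 1)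
    rw [Nat.card_zpowers, Subgroup.orderOf_mk, pow_one]
    have : x * b * x⁻¹ = MulAut.conj x b := by simp
    rw [this, MulEquiv.orderOf_eq, hb.ord]
  obtain ⟨Q, hQ⟩ := hzb.exists_le_sylow
  obtain ⟨k, hk⟩ := MulAction.exists_smul_eq K Q P
  have hkb : k * (⟨x * b * x⁻¹, hbK⟩ : K) * k⁻¹ ∈ (P : Subgroup K) := by
    have h1 : k * (⟨x * b * x⁻¹, hbK⟩ : K) * k⁻¹ ∈ ((k • Q : Sylow p K) : Subgroup K) := by
      rw [Sylow.coe_subgroup_smul]
      exact Subgroup.smul_mem_pointwise_smul _ (MulAut.conj k) _ (hQ (mem_zpowers _))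
    rwa [hk] at h1
  have hkx : (k : G) * x ∈ M := by
    apply hb.iso
    have h1 := hcomm _ hkb
    have h2 : (k : G) * x * b * ((k : G) * x)⁻¹ =
        ((k * (⟨x * b * x⁻¹, hbK⟩ : K) * k⁻¹ : K) : G) := by
      push_cast; group
    rw [h2]
    exact h1
  have hbK' : b ∈ K := by
    have h2 : (k : G) * x * b * ((k : G) * x)⁻¹ = b := by
      rw [hb.cen _ hkx, mul_inv_cancel_right]
    have h3 : ((k * (⟨x * b * x⁻¹, hbK⟩ : K) * k⁻¹ : K) : G) =
        (k : G) * x * b * ((k : G) * x)⁻¹ := by push_cast; group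
    have h4 := (k * (⟨x * b * x⁻¹, hbK⟩ : K) * k⁻¹).2
    rw [h3, h2] at h4
    exact h4
  -- `K ∩ F` is trivial
  have hN : (F ⊓ K : Subgroup G) = ⊥ := by
    have hNf : Finite (F ⊓ K : Subgroup G) := Finite.of_injective
      (inclusion (inf_le_right : F ⊓ K ≤ K)) (inclusion_injective _)
    apply Helper21.BP.no_rank_two_group hp a b hab hap hbp (F ⊓ K) hNf
    · rintro n ⟨hnF, hnK⟩
      exact ⟨hFn.conj_mem _ hnF a, K.mul_mem (K.mul_mem haK hnK) (K.inv_mem haK)⟩
    · rintro n ⟨hnF, hnK⟩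
      exact ⟨hFn.conj_mem _ hnF b, K.mul_mem (K.mul_mem hbK' hnK) (K.inv_mem hbK')⟩
    · rintro n ⟨hnF, hnK⟩ hnb
      exact hC.triv n hnF (hb.comm hnb)
    · rintro j n ⟨hnF, hnK⟩ hnb
      exact hC.triv n hnF ((hall j).comm hnb)
  apply hx
  -- `[x, b] ∈ F ⊓ K`
  have h7 : x * b * x⁻¹ * b⁻¹ ∈ (F ⊓ K : Subgroup G) := by
    refine ⟨?_, K.mul_mem hbK (K.inv_mem hbK')⟩
    obtain ⟨f, hf, m, hm, rfl⟩ := hC.top x
    have h1 : f * m * b * (f * m)⁻¹ * b⁻¹ = f * (b * f⁻¹ * b⁻¹) := by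
      have h2 := hb.cen m hm
      calc f * m * b * (f * m)⁻¹ * b⁻¹ = f * (m * b) * m⁻¹ * f⁻¹ * b⁻¹ := by group
        _ = f * (b * m) * m⁻¹ * f⁻¹ * b⁻¹ := by rw [h2]
        _ = _ := by group
    rw [h1]
    exact F.mul_mem hf (hFn.conj_mem _ (F.inv_mem hf) b)
  rw [hN, mem_bot] at h7
  apply hb.comm
  have h8 := mul_inv_eq_one.1 h7
  exact mul_inv_eq_iff_eq_mul.1 h8

end Pool.Agent.Helper4.BM
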