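import Pool.Agent.Helper4.BM.Fin1

/-!
Assembly: periodic groups with a finite maximal subgroup which is nilpotent modulo its core.
-/

namespace Pool.Agent.Helper4.BM

open Subgroup

universe u

/-- Isolation for `p`-groups, `p` odd. -/
def IsoP : Prop := ∀ (G : Type u) [Group G] (M : Subgroup G), Finite M → IsCoatom M →
  M.normalCore = ⊥ → ∀ p : ℕ, p.Prime → p ≠ 2 → IsPGroup p M → ∀ z ∈ M, orderOf z = p →
    (∀ m ∈ M, m * z = z * m) → Good M p z

theorem good_central (hP : IsoP.{u}) {G : Type u} [Group G] {M : Subgroup G} (hfin : Finite M)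
    (hnil : Group.IsNilpotent M) (hmax : IsCoatom M) (hcore : M.normalCore = ⊥) {p : ℕ}
    (hp : p.Prime) (hp2 : p ≠ 2) {z : G} (hz : z ∈ M) (hzo : orderOf z = p)
    (hcen : ∀ m ∈ M, m * z = z * m) : Good M p z := by
  by_cases h : ∃ r : ℕ, r.Prime ∧ r ≠ p ∧ r ∣ Nat.card M
  · obtain ⟨r, hr, hrp, hrM⟩ := h
    exact good_of_two hmax hcore hp hr (Ne.symm hrp) hrM hz hzo hcen
  · push Not at h
    have h1 : Nat.card M = p ^ (Nat.card M).primeFactorsList.length := by
      apply Nat.eq_prime_pow_of_unique_prime_dvd Nat.card_pos.ne'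
      intro d hd hdM
      by_contra hdp
      exact h d hd hdp hdM
    haveI : Fact p.Prime := ⟨hp⟩
    exact hP G M hfin hmax hcore p hp hp2 (IsPGroup.of_card h1) z hz hzo hcen

theorem not_even {G : Type u} [Group G] {M : Subgroup G} (ht : ∀ g : G, IsOfFinOrder g)
    (hinf : Infinite G) (hfin : Finite M) (hnil : Group.IsNilpotent M) (hmax : IsCoatom M)
    (hcore : M.normalCore = ⊥) : ¬ 2 ∣ Nat.card M := by
  intro hd
  obtain ⟨i, hi, hic⟩ := exists_central (M := M) Nat.prime_two hd
  have hi2 : (i : G) * i = 1 := by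
    have := pow_orderOf_eq_one i
    rw [hi, pow_two] at this
    exact congrArg Subtype.val this
  have hi1 : (i : G) ≠ 1 := by
    intro h1
    have : i = 1 := Subtype.ext h1
    rw [this, orderOf_one] at hi
    omega
  have := even_gen ht hfin hmax hcore i.2 hi1 hi2
    (fun m hm => congrArg Subtype.val (hic ⟨m, hm⟩))
  exact hinf.not_finite this

theorem hx_of (hP : IsoP.{u}) {G : Type u} [Group G] {M : Subgroup G}
    (ht : ∀ g : G, IsOfFinOrder g) (hinf : Infinite G) (hcb : CB G) (hfin : Finite M)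
    (hnil : Group.IsNilpotent M) (hmax : IsCoatom M) (hcore : M.normalCore = ⊥) : HX M := by
  refine ⟨ht, hcb, hfin, hnil, ?_⟩
  intro p hp hpM
  have hp2 : p ≠ 2 := by
    rintro rfl
    exact not_even ht hinf hfin hnil hmax hcore hpM
  refine ⟨hp2, ?_⟩
  obtain ⟨z, hz, hzc⟩ := exists_central (M := M) hp hpM
  exact ⟨z, good_central hP hfin hnil hmax hcore hp hp2 z.2
    (by rw [Subgroup.orderOf_coe, hz]) (fun m hm => congrArg Subtype.val (hzc ⟨m, hm⟩))⟩

/-- The structure of the group. -/
structure Str {G : Type*} [Group G] (M F : Subgroup G) : Prop where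
  normal : F.Normal
  triv : ∀ f ∈ F, f ∈ M → f = 1
  top : ∀ g, ∃ f ∈ F, ∃ m ∈ M, g = f * m
  cop : ∀ f ∈ F, (orderOf f).Coprime (Nat.card M)
  reg : ∀ z ∈ M, (orderOf z).Prime → (∀ m ∈ M, m * z = z * m) → ∀ f ∈ F, f * z = z * f → f = 1

theorem two_conj {G : Type u} [Group G] (hcb : CB G) {p : ℕ} (hp : p.Prime) {z : G}
    (hz : orderOf z = p) (x : G) : Finite (closure ({z, x * z * x⁻¹} : Set G)) := by
  have hz1 : z ≠ 1 := by
    intro h1
    rw [h1, orderOf_one] at hz
    exact hp.one_lt.ne hz
  have hbot : ∀ g : G, g ∈ normalizer ((⊥ : Subgroup G) : Set G) := by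
    intro g
    rw [mem_normalizer_iff]
    intro y
    simp
  have h1 := hcb ⊥ inferInstance z x (hbot z) (hbot x) p hp
    (by rw [mem_bot, ← hz, pow_orderOf_eq_one]) (by rw [mem_bot]; exact hz1)
  have h2 : closure ({z, x * z * x⁻¹} : Set G) ≤
      closure (((⊥ : Subgroup G) : Set G) ∪ {z, x * z * x⁻¹}) :=
    closure_mono Set.subset_union_right
  exact Finite.of_injective (inclusion h2) (inclusion_injective h2)

theorem core_free_main (hP : IsoP.{u}) {G : Type u} [Group G] {M : Subgroup G}
    (ht : ∀ g : G, IsOfFinOrder g) (hinf : Infinite G) (hcb : CB G) (hfin : Finite M)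
    (hnil : Group.IsNilpotent M) (hmax : IsCoatom M) (hcore : M.normalCore = ⊥) :
    ¬ 3 ∣ Nat.card M ∧ ¬ (Nat.card M).Prime ∧ (∃ F : Subgroup G, Str M F) ∧
      ∀ p : ℕ, p.Prime → ∀ z, Good M p z → ∃ F : Subgroup G, Compl M p z F := by
  have hHX := hx_of hP ht hinf hcb hfin hnil hmax hcore
  have hXC := theorem_X (Nat.card M) G M hHX le_rfl
  have hdiv : ∀ (p : ℕ) (z : G), Good M p z → p ∣ Nat.card M := by
    intro p z hz
    have h1 := orderOf_dvd_natCard (⟨z, hz.mem⟩ : M)
    rwa [Subgroup.orderOf_mk, hz.ord] at h1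
  have hC : ∀ p : ℕ, p.Prime → ∀ z, Good M p z → ∃ F : Subgroup G, Compl M p z F :=
    fun p hp z hz => hXC p hp (hdiv p z hz) z hz
  refine ⟨?_, ?_, ?_, hC⟩
  · intro h3
    obtain ⟨-, z, hz⟩ := hHX.iso 3 Nat.prime_three h3
    obtain ⟨F, hF⟩ := hC 3 Nat.prime_three z hz
    exact hinf.not_finite (three_gen ht hmax hfin hz.ord hF)
  · intro hpr
    obtain ⟨-, z, hz⟩ := hHX.iso _ hpr dvd_rfl
    exact hinf.not_finite (prime_gen hmax hfin hz (two_conj hcb hpr hz.ord))
  · -- a prime divisor
    have hM1 : Nat.card M ≠ 1 := by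
      intro h1
      rw [card_eq_one] at h1
      obtain ⟨x, hx⟩ := exists_not_mem hmax
      have hx1 : x ≠ 1 := fun h => hx (h ▸ M.one_mem)
      have h2 : zpowers x = ⊤ := by
        rcases hmax.le_iff.1 (show M ≤ zpowers x by rw [h1]; exact bot_le) with h3 | h3
        · exact h3
        · exfalso
          apply hx1
          have : x ∈ zpowers x := mem_zpowers x
          rw [h3, h1] at this
          exact mem_bot.1 this
      have h3 : Finite (zpowers x) := (ht x).finite_zpowers
      rw [h2] at h3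
      exact hinf.not_finite ((Subgroup.topEquiv (G := G)).toEquiv.finite_iff.1 h3)
    obtain ⟨p, hp, hpM⟩ := Nat.exists_prime_and_dvd hM1
    obtain ⟨-, z, hz⟩ := hHX.iso p hp hpM
    obtain ⟨F, hF⟩ := hC p hp z hz
    refine ⟨F, hF.normal, hF.triv, hF.top, ?_, ?_⟩
    · intro f hf
      by_contra hne
      obtain ⟨r, hr, hrf, hrM⟩ := Nat.Prime.not_coprime_iff_dvd.1 hne
      obtain ⟨-, y, hy⟩ := hHX.iso r hr hrM
      obtain ⟨F', hF'⟩ := hC r hr y hy
      have h1 := hF'.cop f (hF'.le hF hz hf)
      have h2 : r ∣ Nat.gcd (orderOf f) r := Nat.dvd_gcd hrf dvd_rfl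
      rw [h1] at h2
      exact hr.one_lt.ne' (Nat.dvd_one.1 h2)
    · intro y hyM hyp hyc f hf hfy
      have hy2 : orderOf y ≠ 2 := by
        intro h2
        apply not_even ht hinf hfin hnil hmax hcore
        have h1 := orderOf_dvd_natCard (⟨y, hyM⟩ : M)
        rwa [Subgroup.orderOf_mk, h2] at h1
      have hgood := good_central hP hfin hnil hmax hcore hyp hy2 hyM rfl hyc
      exact hF.triv f hf (hgood.comm hfy)

/-- The centre is cyclic in the biprimitively finite case. -/
theorem center_cyclic (hP : IsoP.{u}) {G : Type u} [Group G] {M : Subgroup G}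
    (ht : ∀ g : G, IsOfFinOrder g) (hinf : Infinite G) (hcb : CB G) (hfin : Finite M)
    (hnil : Group.IsNilpotent M) (hmax : IsCoatom M) (hcore : M.normalCore = ⊥)
    (hbf : ∀ x y : G, (orderOf x).Prime → (orderOf y).Prime →
      Finite (closure ({x, y} : Set G))) : IsCyclic (center M) := by
  obtain ⟨-, -, -, hC⟩ := core_free_main hP ht hinf hcb hfin hnil hmax hcore
  letI : CommGroup (center M) := { (inferInstance : Group (center M)) with
    mul_comm := fun x y => Subtype.ext (mem_center_iff.1 y.2 x) }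
  apply Helper21.BP.cyc_of_prime
  intro p hp a b hpa hpb
  by_contra hab
  have hpa' : orderOf ((a : M) : G) = p := by
    rw [Subgroup.orderOf_coe, Subgroup.orderOf_coe, hpa]
  have hpb' : orderOf ((b : M) : G) = p := by
    rw [Subgroup.orderOf_coe, Subgroup.orderOf_coe, hpb]
  have hp2 : p ≠ 2 := by
    rintro rfl
    apply not_even ht hinf hfin hnil hmax hcore
    have h1 := orderOf_dvd_natCard (a : M)
    rwa [Subgroup.orderOf_coe, hpa] at h1
  have hcen : ∀ c : center M, ∀ m ∈ M, m * ((c : M) : G) = ((c : M) : G) * m := by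
    intro c m hm
    have := mem_center_iff.1 c.2 ⟨m, hm⟩
    exact congrArg Subtype.val this
  have hgood : ∀ c : center M, orderOf c = p → Good M p ((c : M) : G) := by
    intro c hc
    exact good_central hP hfin hnil hmax hcore hp hp2 (c : M).2
      (by rw [Subgroup.orderOf_coe, Subgroup.orderOf_coe, hc]) (hcen c)
  have ha := hgood a hpa
  have hb := hgood b hpb
  obtain ⟨F, hF⟩ := hC p hp _ ha
  refine rank_gen hmax hp hF ha ?_ hb ?_
  · intro j
    have h1 : orderOf (a * b ^ j) = p := by
      haveI : Fact p.Prime := ⟨hp⟩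
      apply orderOf_eq_prime
      · rw [mul_pow, ← pow_mul, mul_comm j p, pow_mul, ← hpa, pow_orderOf_eq_one, hpa, ← hpb,
          pow_orderOf_eq_one, one_pow, mul_one]
      · intro h1
        apply hab
        have : a = (b ^ j)⁻¹ := eq_inv_of_mul_eq_one_left h1
        rw [this]
        exact (zpowers b).inv_mem ((zpowers b).pow_mem (mem_zpowers b) j)
    exact hgood (a * b ^ j) h1
  · intro x
    apply hbf
    · rw [hpa']; exact hp
    · have : x * ((b : M) : G) * x⁻¹ = MulAut.conj x ((b : M) : G) := by simp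
      rw [this, MulEquiv.orderOf_eq, hpb']
      exact hp

section Quotient

variable {G : Type u} [Group G] (M : Subgroup G)

theorem quot_data (hmax : IsCoatom M) (hfin : Finite M)
    (hnil : Group.IsNilpotent (M ⧸ M.normalCore.subgroupOf M)) :
    Finite (M.map (QuotientGroup.mk' M.normalCore)) ∧
    Group.IsNilpotent (M.map (QuotientGroup.mk' M.normalCore)) ∧
    IsCoatom (M.map (QuotientGroup.mk' M.normalCore)) ∧
    (M.map (QuotientGroup.mk' M.normalCore)).normalCore = ⊥ := by
  set N := M.normalCore with hN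
  have hle : N ≤ M := normalCore_le M
  have hker : (QuotientGroup.mk' N).ker = N := QuotientGroup.ker_mk' N
  have hsurj := QuotientGroup.mk'_surjective N
  have hcm : (M.map (QuotientGroup.mk' N)).comap (QuotientGroup.mk' N) = M := by
    rw [comap_map_eq, hker, sup_eq_left]
    exact hle
  refine ⟨?_, ?_, ⟨?_, ?_⟩, ?_⟩
  · exact (Set.Finite.image _ (Set.toFinite (M : Set G))).to_subtype
  · obtain ⟨e⟩ := Helper21.BP.exists_equiv M
    exact nil_of_injective hnil e.symm.toMonoidHom e.symm.injective
  · intro h1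
    apply hmax.1
    rw [← hcm, h1, comap_top]
  · intro L hL
    have h1 := (comap_lt_comap_of_surjective hsurj).2 hL
    rw [hcm] at h1
    have h2 := hmax.2 _ h1
    rw [← map_comap_eq_self_of_surjective hsurj L, h2, map_top_of_surjective _ hsurj]
  · rw [eq_bot_iff]
    intro q hq
    have h1 : ((M.map (QuotientGroup.mk' N)).normalCore).comap (QuotientGroup.mk' N) ≤ M := by
      conv_rhs => rw [← hcm]
      exact comap_mono (normalCore_le _)
    haveI : (((M.map (QuotientGroup.mk' N)).normalCore).comap (QuotientGroup.mk' N)).Normal :=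
      inferInstance
    have h2 : ((M.map (QuotientGroup.mk' N)).normalCore).comap (QuotientGroup.mk' N) ≤ N :=
      normal_le_normalCore.2 h1
    obtain ⟨g, rfl⟩ := hsurj q
    have h3 : g ∈ N := h2 hq
    rw [mem_bot]
    change (QuotientGroup.mk g : G ⧸ N) = 1
    rw [QuotientGroup.eq_one_iff]
    exact h3

end Quotient

/-- Two prime divisors: the group is abelian. -/
theorem comm_of_pq {A : Type*} [Group A] [Finite A] [Group.IsNilpotent A] {p q : ℕ}
    (hp : p.Prime) (hq : q.Prime) (hpq : p ≠ q) (hcard : Nat.card A = p * q) :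
    ∀ x y : A, x * y = y * x := by
  obtain ⟨a, ha, hac⟩ := exists_central (M := A) hp ⟨q, hcard⟩
  obtain ⟨b, hb, hbc⟩ := exists_central (M := A) hq ⟨p, by rw [hcard, mul_comm]⟩
  have haZ : a ∈ center A := mem_center_iff.2 hac
  have hbZ : b ∈ center A := mem_center_iff.2 hbc
  have htop : center A = ⊤ := by
    apply Subgroup.eq_top_of_le_card
    rw [hcard]
    have hpd : p ∣ Nat.card (center A) := by
      have := Subgroup.orderOf_dvd_natCard (center A) (x := a) haZ
      rwa [ha] at this
    have hqd : q ∣ Nat.card (center A) := by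
      have := Subgroup.orderOf_dvd_natCard (center A) (x := b) hbZ
      rwa [hb] at this
    exact Nat.le_of_dvd Nat.card_pos
      (Nat.Coprime.mul_dvd_of_dvd_of_dvd ((Nat.coprime_primes hp hq).2 hpq) hpd hqd)
  intro x y
  have hy : y ∈ center A := by rw [htop]; exact mem_top y
  exact mem_center_iff.1 hy x

theorem main (hP : IsoP.{u}) (G : Type u) [Group G] (ht : ∀ g : G, IsOfFinOrder g)
    (hinf : Infinite G) (M : Subgroup G) (hmax : IsCoatom M) (hfin : Finite M)
    (hnil : Group.IsNilpotent (M ⧸ M.normalCore.subgroupOf M)) :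
    Odd (Nat.card (M ⧸ M.normalCore.subgroupOf M)) ∧
    (Helper21.BP.ConjugacyBiprimitivelyFinite G →
      ¬ 3 ∣ Nat.card (M ⧸ M.normalCore.subgroupOf M) ∧
      ¬ (Nat.card (M ⧸ M.normalCore.subgroupOf M)).Prime ∧
      ∃ F : Subgroup (G ⧸ M.normalCore), F.Normal ∧
        F.IsComplement' (M.map (QuotientGroup.mk' M.normalCore)) ∧
        (∀ f ∈ F, (orderOf f).Coprime (Nat.card (M ⧸ M.normalCore.subgroupOf M))) ∧
        ∀ z ∈ M.map (QuotientGroup.mk' M.normalCore), (orderOf z).Prime →
          (∀ m ∈ M.map (QuotientGroup.mk' M.normalCore), m * z = z * m) →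
          ∀ f ∈ F, f * z = z * f → f = 1) ∧
    (Helper21.BP.BiprimitivelyFinite G →
      IsCyclic (center (M ⧸ M.normalCore.subgroupOf M)) ∧
      ∀ p q : ℕ, p.Prime → q.Prime → p ≠ q →
        Nat.card (M ⧸ M.normalCore.subgroupOf M) ≠ p * q) := by
  obtain ⟨hfin', hnil', hmax', hcore'⟩ := quot_data M hmax hfin hnil
  obtain ⟨e⟩ := Helper21.BP.exists_equiv M
  have hcard : Nat.card (M ⧸ M.normalCore.subgroupOf M) =
      Nat.card (M.map (QuotientGroup.mk' M.normalCore) : Subgroup (G ⧸ M.normalCore)) :=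
    Nat.card_congr e.toEquiv
  haveI hcf : Finite M.normalCore := Finite.of_injective (inclusion (normalCore_le M))
    (inclusion_injective _)
  have hQinf : Infinite (G ⧸ M.normalCore) := by
    by_contra hQ
    rw [not_infinite_iff_finite] at hQ
    haveI : M.normalCore.FiniteIndex := finiteIndex_of_finite_quotient
    exact hinf.not_finite (Helper21.BP.finite_of_finite_finiteIndex M.normalCore)
  have ht' : ∀ g : G ⧸ M.normalCore, IsOfFinOrder g := by
    intro g
    obtain ⟨g, rfl⟩ := QuotientGroup.mk_surjective g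
    exact (QuotientGroup.mk' M.normalCore).isOfFinOrder (ht g)
  refine ⟨?_, ?_, ?_⟩
  · rw [hcard, ← Nat.not_even_iff_odd, even_iff_two_dvd]
    exact not_even ht' hQinf hfin' hnil' hmax' hcore'
  · intro hbf
    have hcb : CB (G ⧸ M.normalCore) := cb_quotient (cb_of hbf) M.normalCore hcf
    obtain ⟨h3, hpr, ⟨F, hF⟩, -⟩ := core_free_main hP ht' hQinf hcb hfin' hnil' hmax' hcore'
    rw [hcard]
    refine ⟨h3, hpr, F, hF.normal, ?_, hF.cop, hF.reg⟩
    haveI := hF.normal
    apply isComplement'_of_disjoint_and_mul_eq_univ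
    · rw [disjoint_iff, eq_bot_iff]
      rintro f ⟨hf, hfM⟩
      exact mem_bot.2 (hF.triv f hf hfM)
    · rw [Set.eq_univ_iff_forall]
      intro g
      obtain ⟨f, hf, m, hm, rfl⟩ := hF.top g
      exact Set.mul_mem_mul hf hm
  · intro hbf
    have hc0 : ∀ x y : G ⧸ M.normalCore, (orderOf x).Prime → (orderOf y).Prime →
        Finite (closure ({x, y} : Set (G ⧸ M.normalCore))) := by
      intro x y hx hy
      apply Helper21.BP.finite_closure_of M.normalCore x y
      intro θ hθ
      apply hbf M.normalCore hcf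
      · rw [orderOf_injective θ hθ]; exact hx
      · rw [orderOf_injective θ hθ]; exact hy
    have hcbf : Helper21.BP.ConjugacyBiprimitivelyFinite G := by
      intro H hH x y hx hxy
      apply hbf H hH x y hx
      obtain ⟨c, hcy⟩ := isConj_iff.1 hxy
      have : y = MulAut.conj c x := by rw [← hcy]; simp
      rw [this, MulEquiv.orderOf_eq]
      exact hx
    have hcb : CB (G ⧸ M.normalCore) := cb_quotient (cb_of hcbf) M.normalCore hcf
    have hcyc := center_cyclic hP ht' hQinf hcb hfin' hnil' hmax' hcore' hc0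
    refine ⟨?_, ?_⟩
    · haveI := hcyc
      let φ : center (M ⧸ M.normalCore.subgroupOf M) →*
          center (M.map (QuotientGroup.mk' M.normalCore) : Subgroup (G ⧸ M.normalCore)) :=
        { toFun := fun c => ⟨e c, by
            rw [mem_center_iff]
            intro g
            obtain ⟨g, rfl⟩ := e.surjective g
            rw [← map_mul, ← map_mul, mem_center_iff.1 c.2 g]⟩
          map_one' := Subtype.ext (by simp)
          map_mul' := fun a b => Subtype.ext (by simp) }
      have hφ : Function.Injective φ := by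
        intro a b hab
        apply Subtype.ext
        apply e.injective
        exact congrArg Subtype.val hab
      exact isCyclic_of_injective φ hφ
    · intro p q hp hq hpq hcd
      haveI := hnil
      haveI : Finite (M ⧸ M.normalCore.subgroupOf M) := Quotient.finite _
      have hab := comm_of_pq hp hq hpq hcd
      have h1 := (Helper21.BP.main G ht hinf M hmax hfin hab).2.2 hbf
      exact h1.2.2.2 p q hp hq hpq hcd

end Pool.Agent.Helper4.BM
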