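import Mathlib

/-!
Frobenius' normal p-complement theorem: a finite group in which every p'-element normalising a
p-subgroup centralises it has a normal p-complement.
-/

namespace Pool.Agent.Helper4.BM

open Subgroup

/-- The fusion condition: every element of order prime to `p` which normalises a `p`-subgroup
centralises it. -/
def PC (p : ℕ) (K : Type*) [Group K] : Prop :=
  ∀ E : Subgroup K, IsPGroup p E → ∀ g : K, (∀ x ∈ E, g * x * g⁻¹ ∈ E) →
    (orderOf g).Coprime p → ∀ x ∈ E, g * x = x * g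

/-- `p`-nilpotence: the elements of order prime to `p` form a subgroup. -/
def PN (p : ℕ) (K : Type*) [Group K] : Prop :=
  ∃ L : Subgroup K, ∀ x, x ∈ L ↔ (orderOf x).Coprime p

theorem exists_ppart {K : Type*} [Group K] {p : ℕ} (hp : p.Prime) {g : K} (hg : orderOf g ≠ 0) :
    ∃ a : ℕ, (orderOf (g ^ p ^ a)).Coprime p := by
  obtain ⟨a, m, hm, h⟩ := Nat.exists_eq_pow_mul_and_not_dvd hg p hp.ne_one
  refine ⟨a, ?_⟩
  have h1 : orderOf (g ^ p ^ a) = m := by
    rw [orderOf_pow_of_dvd (pow_ne_zero _ hp.ne_zero) (by rw [h]; exact Dvd.intro _ rfl), h]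
    exact Nat.mul_div_cancel_left _ (pow_pos hp.pos _)
  rw [h1]
  exact ((Nat.Prime.coprime_iff_not_dvd hp).2 hm).symm

/-- Decomposition of a group normalising a `p`-subgroup `E`. -/
theorem decomp {K : Type*} [Group K] [Finite K] {p : ℕ} [hp : Fact p.Prime] (hK : PC p K)
    (E N S : Subgroup K) (hE : IsPGroup p E) (hN : ∀ g ∈ N, ∀ x ∈ E, g * x * g⁻¹ ∈ E)
    (hSN : S ≤ N) (hS : ¬ p ∣ S.relIndex N) (n : K) (hn : n ∈ N) :
    ∃ s ∈ S, ∃ c ∈ N, (∀ x ∈ E, c * x = x * c) ∧ n = s * c := by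
  have hnormal : (centralizer (E : Set K)).subgroupOf N |>.Normal := by
    constructor
    intro c hc g
    rw [mem_subgroupOf, mem_centralizer_iff] at hc ⊢
    intro x hx
    have h1 := hN g⁻¹ (N.inv_mem g.2) x hx
    have h2 := hc _ h1
    push_cast
    rw [inv_inv] at h2
    calc x * ((g : K) * (c : K) * (g : K)⁻¹) = g * ((g : K)⁻¹ * x * g * c) * (g : K)⁻¹ := by group
      _ = g * ((c : K) * ((g : K)⁻¹ * x * g)) * (g : K)⁻¹ := by rw [h2]
      _ = _ := by group
  have hq : IsPGroup p (N ⧸ (centralizer (E : Set K)).subgroupOf N) := by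
    intro q
    obtain ⟨g, rfl⟩ := QuotientGroup.mk_surjective q
    obtain ⟨a, ha⟩ := exists_ppart (K := K) hp.out (g := (g : K)) (orderOf_pos _).ne'
    refine ⟨a, ?_⟩
    rw [← QuotientGroup.mk_pow, QuotientGroup.eq_one_iff, mem_subgroupOf, mem_centralizer_iff]
    intro x hx
    have h1 : ∀ x ∈ E, ((g : K) ^ p ^ a) * x * ((g : K) ^ p ^ a)⁻¹ ∈ E := by
      intro x hx
      exact hN _ (N.pow_mem g.2 _) x hx
    have := hK E hE _ h1 ha x hx
    push_cast
    exact this.symm
  have hidx : ∃ k, ((centralizer (E : Set K)).subgroupOf N).index = p ^ k := by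
    obtain ⟨k, hk⟩ := hq.exists_card_eq
    exact ⟨k, by rw [← hk]; rfl⟩
  have htop : S.subgroupOf N ⊔ (centralizer (E : Set K)).subgroupOf N = ⊤ := by
    rw [← index_eq_one]
    obtain ⟨k, hk⟩ := hidx
    have h1 : (S.subgroupOf N ⊔ (centralizer (E : Set K)).subgroupOf N).index ∣ p ^ k := by
      rw [← hk]
      exact index_dvd_of_le le_sup_right
    have h2 : (S.subgroupOf N ⊔ (centralizer (E : Set K)).subgroupOf N).index ∣
        S.relIndex N := index_dvd_of_le le_sup_left
    rw [Nat.dvd_prime_pow hp.out] at h1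
    obtain ⟨j, -, hj⟩ := h1
    rcases Nat.eq_zero_or_pos j with h0 | h0
    · rw [hj, h0, pow_zero]
    · exfalso
      apply hS
      refine dvd_trans ?_ h2
      rw [hj]
      exact dvd_pow_self p h0.ne'
  have hmem : (⟨n, hn⟩ : N) ∈ S.subgroupOf N ⊔ (centralizer (E : Set K)).subgroupOf N := by
    rw [htop]
    exact mem_top _
  rw [mem_sup_of_normal_right] at hmem
  obtain ⟨s, hs, c, hc, hsc⟩ := hmem
  rw [mem_subgroupOf] at hs hc
  refine ⟨s, hs, c, c.2, ?_, ?_⟩
  · intro x hx
    exact ((mem_centralizer_iff.1 hc) x hx).symm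
  · have := congrArg Subtype.val hsc
    simpa using this.symm

/-- Two `p`-subgroups of `N` are, up to conjugation in `N`, contained in a Sylow subgroup. -/
theorem common {K : Type*} [Group K] {p : ℕ} [hp : Fact p.Prime]
    (N A B : Subgroup K) [Finite N] (hA : A ≤ N) (hB : B ≤ N) (pA : IsPGroup p A) (pB : IsPGroup p B) :
    ∃ S : Subgroup K, S ≤ N ∧ IsPGroup p S ∧ ¬ p ∣ S.relIndex N ∧ A ≤ S ∧
      ∃ n ∈ N, ∀ b ∈ B, n * b * n⁻¹ ∈ S := by
  have pA' : IsPGroup p (A.subgroupOf N) :=
    pA.comap_of_injective N.subtype N.subtype_injective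
  have pB' : IsPGroup p (B.subgroupOf N) :=
    pB.comap_of_injective N.subtype N.subtype_injective
  obtain ⟨S1, hS1⟩ := pA'.exists_le_sylow
  obtain ⟨S2, hS2⟩ := pB'.exists_le_sylow
  obtain ⟨n, hn⟩ := MulAction.exists_smul_eq N S2 S1
  refine ⟨(S1 : Subgroup N).map N.subtype, ?_, ?_, ?_, ?_, (n : K), n.2, ?_⟩
  · rintro _ ⟨x, -, rfl⟩
    exact x.2
  · exact S1.isPGroup'.map _
  · have h1 : ((S1 : Subgroup N).map N.subtype).relIndex N = (S1 : Subgroup N).index := by
      rw [relIndex, subgroupOf, comap_map_eq_self_of_injective N.subtype_injective]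
    rw [h1]
    exact S1.not_dvd_index
  · intro a ha
    refine ⟨⟨a, hA ha⟩, hS1 ?_, rfl⟩
    exact mem_subgroupOf.2 ha
  · intro b hb
    have h2 : (⟨b, hB hb⟩ : N) ∈ (S2 : Subgroup N) := hS2 (mem_subgroupOf.2 hb)
    refine ⟨n * ⟨b, hB hb⟩ * n⁻¹, ?_, rfl⟩
    have h3 : n * ⟨b, hB hb⟩ * n⁻¹ ∈ ((n • S2 : Sylow p N) : Subgroup N) := by
      rw [Sylow.coe_subgroup_smul]
      exact Subgroup.smul_mem_pointwise_smul (⟨b, hB hb⟩ : N) (MulAut.conj n) _ h2
    rw [hn] at h3
    exact h3

/-- Normalisers grow in `p`-groups. -/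
theorem exists_growth {K : Type*} [Group K] {p : ℕ} [hp : Fact p.Prime]
    (D P : Subgroup K) [Finite P] (hP : IsPGroup p P) (hDP : D < P) :
    ∃ x ∈ P, x ∉ D ∧ ∀ y, y ∈ D ↔ x * y * x⁻¹ ∈ D := by
  haveI : Group.IsNilpotent P := hP.isNilpotent
  have h1 : D.subgroupOf P < ⊤ := by
    rw [lt_top_iff_ne_top]
    intro h
    rw [subgroupOf_eq_top] at h
    exact absurd h (not_le_of_gt hDP)
  have h2 := Group.normalizerCondition_of_isNilpotent (G := P) (D.subgroupOf P) h1
  obtain ⟨x, hx, hxD⟩ := SetLike.exists_of_lt h2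
  refine ⟨x, x.2, fun h => hxD (mem_subgroupOf.2 h), ?_⟩
  intro y
  rw [mem_normalizer_iff] at hx
  constructor
  · intro hy
    have := (hx ⟨y, hDP.le hy⟩).1 (mem_subgroupOf.2 hy)
    exact mem_subgroupOf.1 this
  · intro hy
    have hyP : y ∈ P := by
      have h3 : (x : K) * y * (x : K)⁻¹ ∈ P := hDP.le hy
      have h4 := P.mul_mem (P.mul_mem (P.inv_mem x.2) h3) x.2
      have h5 : (x : K)⁻¹ * ((x : K) * y * (x : K)⁻¹) * x = y := by group
      rwa [h5] at h4
    have := (hx ⟨y, hyP⟩).2 (mem_subgroupOf.2 hy)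
    exact mem_subgroupOf.1 this

/-- Two Sylow subgroups are conjugate under the centraliser of their intersection. -/
theorem fusion_aux {K : Type*} [Group K] [Finite K] {p : ℕ} [hp : Fact p.Prime] (hK : PC p K) :
    ∀ (m : ℕ) (P Q : Sylow p K), Nat.card K ≤ Nat.card ((P : Subgroup K) ⊓ Q : Subgroup K) + m →
      ∃ c : K, (∀ x, x ∈ P → x ∈ Q → c * x = x * c) ∧ c • P = Q := by
  intro m
  induction m with
  | zero =>
    intro P Q h
    have h1 : ((P : Subgroup K) ⊓ Q : Subgroup K) = ⊤ := by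
      apply eq_top_of_card_eq
      apply le_antisymm (card_le_card_group _)
      simpa using h
    have hP : (P : Subgroup K) = ⊤ := top_le_iff.1 (h1 ▸ inf_le_left)
    have hQ : (Q : Subgroup K) = ⊤ := top_le_iff.1 (h1 ▸ inf_le_right)
    refine ⟨1, fun x _ _ => by simp, ?_⟩
    rw [one_smul]
    exact Sylow.ext (hP.trans hQ.symm)
  | succ m ih =>
    intro P Q h
    by_cases hPQ : P = Q
    · exact ⟨1, fun x _ _ => by simp, by rw [one_smul, hPQ]⟩
    set D : Subgroup K := (P : Subgroup K) ⊓ Q with hD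
    have hDP : D < P := by
      refine lt_of_le_of_ne inf_le_left ?_
      intro he
      have h1 : (P : Subgroup K) ≤ Q := by rw [← he]; exact inf_le_right
      apply hPQ
      apply Sylow.ext
      exact (P.is_maximal' Q.isPGroup' h1).symm
    have hDQ : D < Q := by
      refine lt_of_le_of_ne inf_le_right ?_
      intro he
      have h1 : (Q : Subgroup K) ≤ P := by rw [← he]; exact inf_le_left
      apply hPQ
      apply Sylow.ext
      exact (Q.is_maximal' P.isPGroup' h1)
    obtain ⟨x1, hx1P, hx1D, hx1⟩ := exists_growth D P P.isPGroup' hDP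
    obtain ⟨x2, hx2Q, hx2D, hx2⟩ := exists_growth D Q Q.isPGroup' hDQ
    set N : Subgroup K := normalizer (D : Set K) with hN
    have pD : IsPGroup p D := P.isPGroup'.to_le inf_le_left
    have hNE : ∀ g ∈ N, ∀ x ∈ D, g * x * g⁻¹ ∈ D := by
      intro g hg x hx
      exact ((mem_normalizer_iff.1 hg) x).1 hx
    obtain ⟨S, hSN, pS, hidx, hAS, n, hn, hnS⟩ := common (p := p) N (N ⊓ P) (N ⊓ Q) inf_le_left
      inf_le_left (P.isPGroup'.to_le inf_le_right) (Q.isPGroup'.to_le inf_le_right)
    obtain ⟨s, hs, c, hcN, hc, hsc⟩ := decomp hK D N S pD hNE hSN hidx n hn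
    obtain ⟨P1, hP1⟩ := pS.exists_le_sylow
    -- D is in P ⊓ P1
    have hDN : D ≤ N := le_normalizer
    have h1 : D < (P : Subgroup K) ⊓ P1 := by
      refine lt_of_le_of_ne ?_ ?_
      · intro y hy
        exact ⟨hDP.le hy, hP1 (hAS ⟨hDN hy, hDP.le hy⟩)⟩
      · intro he
        apply hx1D
        rw [he]
        have hxN : x1 ∈ N := mem_normalizer_iff.2 hx1
        exact ⟨hx1P, hP1 (hAS ⟨hxN, hx1P⟩)⟩
    have hcQ : ∀ y, y ∈ N → y ∈ Q → c * y * c⁻¹ ∈ P1 := by
      intro y hyN hyQ
      have h2 := hnS y ⟨hyN, hyQ⟩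
      have h3 : s⁻¹ * (n * y * n⁻¹) * s ∈ S := S.mul_mem (S.mul_mem (S.inv_mem hs) h2) hs
      have h4 : s⁻¹ * (n * y * n⁻¹) * s = c * y * c⁻¹ := by rw [hsc]; group
      rw [h4] at h3
      exact hP1 h3
    have hmem : ∀ y, c * y * c⁻¹ ∈ P1 → y ∈ (c⁻¹ • P1 : Sylow p K) := by
      intro y hy
      have h5 : c⁻¹ * (c * y * c⁻¹) * (c⁻¹)⁻¹ ∈ ((c⁻¹ • P1 : Sylow p K) : Subgroup K) := by
        rw [Sylow.coe_subgroup_smul]
        exact Subgroup.smul_mem_pointwise_smul _ (MulAut.conj c⁻¹) _ hy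
      have h6 : c⁻¹ * (c * y * c⁻¹) * (c⁻¹)⁻¹ = y := by group
      rw [h6] at h5
      exact h5
    have h2 : D < ((c⁻¹ • P1 : Sylow p K) : Subgroup K) ⊓ Q := by
      refine lt_of_le_of_ne ?_ ?_
      · intro y hy
        exact ⟨hmem y (hcQ y (hDN hy) (hDQ.le hy)), hDQ.le hy⟩
      · intro he
        apply hx2D
        rw [he]
        have hxN : x2 ∈ N := mem_normalizer_iff.2 hx2
        exact ⟨hmem _ (hcQ _ hxN hx2Q), hx2Q⟩
    have hc1 : Nat.card D < Nat.card ((P : Subgroup K) ⊓ P1 : Subgroup K) :=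
      Set.Finite.card_lt_card (Set.toFinite _) h1
    have hc2 : Nat.card D < Nat.card (((c⁻¹ • P1 : Sylow p K) : Subgroup K) ⊓ Q : Subgroup K) :=
      Set.Finite.card_lt_card (Set.toFinite _) h2
    obtain ⟨c1, hc1c, hc1e⟩ := ih P P1 (by omega)
    obtain ⟨c2, hc2c, hc2e⟩ := ih (c⁻¹ • P1) Q (by omega)
    refine ⟨c2 * c⁻¹ * c1, ?_, ?_⟩
    · intro x hxP hxQ
      have hxD : x ∈ D := ⟨hxP, hxQ⟩
      have e1 : c1 * x = x * c1 := hc1c x hxP (h1.le hxD).2
      have e2 : c2 * x = x * c2 := hc2c x (h2.le hxD).1 hxQ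
      have e3 : c * x = x * c := hc x hxD
      have e3' : c⁻¹ * x = x * c⁻¹ := by
        rw [inv_mul_eq_iff_eq_mul, ← mul_assoc, e3, mul_assoc, mul_inv_cancel, mul_one]
      calc c2 * c⁻¹ * c1 * x = c2 * c⁻¹ * (c1 * x) := by group
        _ = c2 * (c⁻¹ * x) * c1 := by rw [e1]; group
        _ = c2 * x * c⁻¹ * c1 := by rw [e3']; group
        _ = x * (c2 * c⁻¹ * c1) := by rw [e2]; group
    · rw [mul_smul, mul_smul, hc1e, hc2e]

/-- A Sylow subgroup controls its own fusion. -/
theorem fusion {K : Type*} [Group K] [Finite K] {p : ℕ} [hp : Fact p.Prime] (hK : PC p K)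
    (P : Sylow p K) (x g : K) (hx : x ∈ P) (hy : g * x * g⁻¹ ∈ P) :
    ∃ u ∈ P, u * x * u⁻¹ = g * x * g⁻¹ := by
  obtain ⟨c, hc, hcP⟩ := fusion_aux hK (Nat.card K) (g • P) P (by omega)
  have hyg : g * x * g⁻¹ ∈ (g • P : Sylow p K) := by
    have : g * x * g⁻¹ ∈ ((g • P : Sylow p K) : Subgroup K) := by
      rw [Sylow.coe_subgroup_smul]
      exact Subgroup.smul_mem_pointwise_smul _ (MulAut.conj g) _ hx
    exact this
  have hcy := hc _ hyg hy
  have hcg : (c * g) • P = P := by rw [mul_smul, hcP]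
  have hN : c * g ∈ normalizer ((P : Subgroup K) : Set K) :=
    Sylow.smul_eq_iff_mem_normalizer.1 hcg
  obtain ⟨u, hu, v, -, hv, huv⟩ := decomp hK P (normalizer ((P : Subgroup K) : Set K)) P
    P.isPGroup' (fun g hg x hx => ((mem_normalizer_iff.1 hg) x).1 hx) le_normalizer
    (fun h => P.not_dvd_index (h.trans (relIndex_dvd_index_of_le le_normalizer))) _ hN
  refine ⟨u, hu, ?_⟩
  have h1 : u = c * g * v⁻¹ := by rw [huv]; group
  have h2 : v * x = x * v := hv x hx
  have h3 : v⁻¹ * x * v = x := by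
    rw [mul_assoc, ← h2, ← mul_assoc, inv_mul_cancel, one_mul]
  calc u * x * u⁻¹ = c * g * (v⁻¹ * x * v) * g⁻¹ * c⁻¹ := by rw [h1]; group
    _ = c * (g * x * g⁻¹) * c⁻¹ := by rw [h3]; group
    _ = (g * x * g⁻¹) * c * c⁻¹ := by rw [hcy]
    _ = _ := by group

/-- Frobenius' theorem. -/
theorem frobenius_aux {p : ℕ} [hp : Fact p.Prime] : ∀ (n : ℕ) (K : Type*) [Group K] [Finite K],
    Nat.card K ≤ n → PC p K → PN p K := by
  intro n
  induction n with
  | zero =>
    intro K _ _ h
    exact absurd h (by have := Nat.card_pos (α := K); omega)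
  | succ n ih =>
    intro K _ _ hcard hK
    obtain ⟨P⟩ : Nonempty (Sylow p K) := inferInstance
    by_cases htriv : ∀ x ∈ P, x = 1
    · -- trivial Sylow subgroup
      refine ⟨⊤, fun x => ?_⟩
      have hcardP : Nat.card (P : Subgroup K) = 1 := by
        rw [card_eq_one, eq_bot_iff]
        intro x hx
        exact mem_bot.2 (htriv x hx)
      have h1 : ¬ p ∣ Nat.card K := by
        intro h
        have h2 := P.dvd_card_of_dvd_card h
        rw [hcardP] at h2
        exact hp.out.one_lt.ne' (Nat.dvd_one.1 h2)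
      refine ⟨fun _ => ?_, fun _ => mem_top x⟩
      exact (((Nat.Prime.coprime_iff_not_dvd hp.out).2 h1).symm).coprime_dvd_left
        (orderOf_dvd_natCard x)
    · push Not at htriv
      obtain ⟨x0, hx0P, hx0⟩ := htriv
      let ϕ : (P : Subgroup K) →* Abelianization (P : Subgroup K) := Abelianization.of
      let V : K →* Abelianization (P : Subgroup K) := MonoidHom.transfer ϕ
      have hpA : IsPGroup p (Abelianization (P : Subgroup K)) := by
        exact P.isPGroup'.of_surjective (Abelianization.of) (QuotientGroup.mk_surjective)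
      have hV : ∀ x : K, ∀ hx : x ∈ P, V x = (ϕ ⟨x, hx⟩) ^ (P : Subgroup K).index := by
        intro x hx
        classical
        let := (P : Subgroup K).fintypeQuotientOfFiniteIndex
        have h1 : V x = ∏ q : Quotient (MulAction.orbitRel (zpowers x) (K ⧸ (P : Subgroup K))),
            (ϕ ⟨x, hx⟩) ^ Function.minimalPeriod (x • ·) q.out := by
          change MonoidHom.transfer ϕ x = _
          rw [MonoidHom.transfer_eq_prod_quotient_orbitRel_zpowers_quot]
          refine Finset.prod_congr rfl fun q _ => ?_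
          rw [← map_pow]
          set k := Function.minimalPeriod (x • ·) q.out with hk
          have hmem := QuotientGroup.out_conj_pow_minimalPeriod_mem (P : Subgroup K) x q.out
          have h2 : (q.out.out⁻¹) * x ^ k * (q.out.out⁻¹)⁻¹ ∈ P := by
            rw [inv_inv]
            exact hmem
          obtain ⟨u, hu, hux⟩ := fusion hK P (x ^ k) (q.out.out⁻¹)
            ((P : Subgroup K).pow_mem hx k) h2
          have h3 : (⟨q.out.out⁻¹ * x ^ k * q.out.out, hmem⟩ : (P : Subgroup K)) =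
              ⟨u, hu⟩ * (⟨x, hx⟩ ^ k) * ⟨u, hu⟩⁻¹ := by
            apply Subtype.ext
            push_cast
            rw [hux, inv_inv]
          rw [h3, map_mul, map_mul, map_inv, mul_comm, inv_mul_cancel_left]
        rw [h1, Finset.prod_pow_eq_pow_sum, index_eq_sum_minimalPeriod (P : Subgroup K) x]
      have hcop : ∀ y : Abelianization (P : Subgroup K), (orderOf y).Coprime p → y = 1 := by
        intro y hy
        obtain ⟨k, hk⟩ := hpA y
        rw [← orderOf_dvd_iff_pow_eq_one] at hk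
        rw [← orderOf_eq_one_iff]
        exact Nat.eq_one_of_dvd_coprimes (Nat.Coprime.pow_right k hy) dvd_rfl hk
      have hpow : ∀ y : Abelianization (P : Subgroup K), y ^ (P : Subgroup K).index = 1 →
          y = 1 := by
        intro y hy
        apply hcop
        rw [← orderOf_dvd_iff_pow_eq_one] at hy
        exact (((Nat.Prime.coprime_iff_not_dvd hp.out).2 P.not_dvd_index).symm).coprime_dvd_left
          hy
      have hker : ∀ x : K, (orderOf x).Coprime p → x ∈ V.ker := by
        intro x hx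
        rw [MonoidHom.mem_ker]
        exact hcop _ (hx.coprime_dvd_left (orderOf_map_dvd V x))
      have hlt : Nat.card V.ker < Nat.card K := by
        apply lt_of_le_of_ne (card_le_card_group _)
        intro h
        have htop : V.ker = ⊤ := eq_top_of_card_eq _ h
        haveI : Group.IsNilpotent (P : Subgroup K) := P.isPGroup'.isNilpotent
        haveI : Nontrivial (P : Subgroup K) :=
          ⟨⟨x0, hx0P⟩, 1, fun h => hx0 (congrArg Subtype.val h)⟩
        have h1 : commutator (P : Subgroup K) < ⊤ :=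
          IsSolvable.commutator_lt_top_of_nontrivial (P : Subgroup K)
        apply h1.ne
        rw [eq_top_iff]
        intro x _
        have h2 : V (x : K) = 1 := by
          have : (x : K) ∈ V.ker := by rw [htop]; exact mem_top _
          exact this
        rw [hV (x : K) x.2] at h2
        have h3 : ϕ x = 1 := hpow _ h2
        exact (QuotientGroup.eq_one_iff x).1 h3
      have hPC : PC p V.ker := by
        intro E hE g hg hgo x hx
        have h1 := hK (E.map V.ker.subtype) (hE.map _) (g : K) (by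
          rintro _ ⟨y, hy, rfl⟩
          exact ⟨g * y * g⁻¹, hg y hy, rfl⟩) (by rwa [orderOf_coe]) (x : K)
          ⟨x, hx, rfl⟩
        exact Subtype.ext h1
      obtain ⟨L, hL⟩ := ih V.ker (by omega) hPC
      refine ⟨L.map V.ker.subtype, fun x => ⟨?_, fun hx => ?_⟩⟩
      · rintro ⟨y, hy, rfl⟩
        have := (hL y).1 hy
        rwa [← orderOf_coe] at this
      · refine ⟨⟨x, hker x hx⟩, ?_, rfl⟩
        refine (hL _).2 ?_
        rw [← orderOf_coe]
        exact hx

theorem frobenius {p : ℕ} [Fact p.Prime] {K : Type*} [Group K] [Finite K] (hK : PC p K) :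
    PN p K := frobenius_aux (Nat.card K) K le_rfl hK

end Pool.Agent.Helper4.BM
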