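import Pool.Agent.Helper4.BM.Nil

/-!
Isolation of central elements of prime order: nilpotent maximal subgroups which are not
`p`-groups.
-/

namespace Pool.Agent.Helper4.BM

open Subgroup

variable {G : Type*} [Group G] {M : Subgroup G}

/-- Central elements of order `p` of a finite nilpotent group. -/
theorem exists_central {M : Type*} [Group M] [Finite M] [Group.IsNilpotent M] {p : ℕ}
    (hp : p.Prime) (hd : p ∣ Nat.card M) :
    ∃ z : M, orderOf z = p ∧ ∀ m, m * z = z * m := by
  haveI : Fact p.Prime := ⟨hp⟩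
  obtain ⟨P⟩ : Nonempty (Sylow p M) := inferInstance
  have hPd : p ∣ Nat.card (P : Subgroup M) := P.dvd_card_of_dvd_card hd
  haveI : Nontrivial (P : Subgroup M) := by
    rw [← Finite.one_lt_card_iff_nontrivial]
    exact lt_of_lt_of_le hp.one_lt (Nat.le_of_dvd Nat.card_pos hPd)
  haveI : Nontrivial (center (P : Subgroup M)) := P.isPGroup'.center_nontrivial
  have hcp : IsPGroup p (center (P : Subgroup M)) := P.isPGroup'.to_subgroup _
  obtain ⟨n, hn0, hn⟩ := hcp.nontrivial_iff_card.1 inferInstance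
  obtain ⟨c, hc⟩ := exists_prime_orderOf_dvd_card' (G := center (P : Subgroup M)) p
    (by rw [hn]; exact dvd_pow_self p hn0.ne')
  set z : M := ((c : (P : Subgroup M)) : M) with hz
  have hzo : orderOf z = p := by rw [hz, Subgroup.orderOf_coe, Subgroup.orderOf_coe, hc]
  refine ⟨z, hzo, ?_⟩
  have hP : (P : Subgroup M) ≤ centralizer {z} := by
    intro y hy
    rw [mem_centralizer_iff]
    rintro _ rfl
    have := mem_center_iff.1 c.2 ⟨y, hy⟩
    exact (congrArg Subtype.val this).symm
  have htop : centralizer ({z} : Set M) = ⊤ := by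
    rw [← index_eq_one]
    by_contra hne
    obtain ⟨q, hq, hqd⟩ := Nat.exists_prime_and_dvd hne
    haveI : Fact q.Prime := ⟨hq⟩
    by_cases hqp : q = p
    · subst hqp
      exact P.not_dvd_index (hqd.trans (index_dvd_of_le hP))
    · obtain ⟨Q⟩ : Nonempty (Sylow q M) := inferInstance
      have hQ : (Q : Subgroup M) ≤ centralizer {z} := by
        intro y hy
        rw [mem_centralizer_iff]
        rintro _ rfl
        apply nil_comm
        rw [hzo]
        obtain ⟨k, hk⟩ := Q.isPGroup' ⟨y, hy⟩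
        have hk' : y ^ q ^ k = 1 := congrArg Subtype.val hk
        exact (Nat.Coprime.pow_right k ((Nat.coprime_primes hp hq).2 (Ne.symm hqp))).coprime_dvd_right
          (orderOf_dvd_of_pow_eq_one hk')
      exact Q.not_dvd_index (hqd.trans (index_dvd_of_le hQ))
  intro m
  have hm : m ∈ centralizer ({z} : Set M) := by rw [htop]; exact mem_top m
  exact ((mem_centralizer_iff.1 hm) z rfl).symm

/-- The centraliser of a central element of a core free maximal subgroup. -/
theorem cen_max (hmax : IsCoatom M) (hcore : M.normalCore = ⊥) {z : G} (hz : z ∈ M)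
    (hz1 : z ≠ 1) (hcen : ∀ m ∈ M, m * z = z * m) (g : G) (hg : g * z = z * g) : g ∈ M := by
  have hle : M ≤ centralizer ({z} : Set G) := by
    intro m hm
    rw [mem_centralizer_iff]
    rintro _ rfl
    exact (hcen m hm).symm
  have hgc : g ∈ centralizer ({z} : Set G) := by
    rw [mem_centralizer_iff]
    rintro _ rfl
    exact hg.symm
  rcases hmax.le_iff.1 hle with h1 | h1
  · exfalso
    apply hz1
    have h2 : (zpowers z).Normal := by
      constructor
      intro n hn y
      obtain ⟨j, rfl⟩ := mem_zpowers_iff.1 hn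
      have hy : y ∈ centralizer ({z} : Set G) := by rw [h1]; exact mem_top y
      have h3 : Commute y z := ((mem_centralizer_iff.1 hy) z rfl).symm
      rw [(h3.zpow_right j).eq, mul_inv_cancel_right]
      exact zpow_mem (mem_zpowers z) j
    have h3 : zpowers z ≤ M.normalCore := normal_le_normalCore.2 (by rw [zpowers_le]; exact hz)
    rw [hcore] at h3
    exact mem_bot.1 (h3 (mem_zpowers z))
  · rw [← h1]
    exact hgc

/-- The normaliser of a nontrivial normal subgroup of a core free maximal subgroup. -/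
theorem nor_max (hmax : IsCoatom M) (hcore : M.normalCore = ⊥) (R : Subgroup G) (hRM : R ≤ M)
    (hR : ∀ m ∈ M, ∀ r ∈ R, m * r * m⁻¹ ∈ R) {w : G} (hw : w ∈ R) (hw1 : w ≠ 1) (g : G)
    (hg : g ∈ normalizer (R : Set G)) : g ∈ M := by
  have hle : M ≤ normalizer (R : Set G) := by
    rw [le_normalizer_iff]
    exact hR
  rcases hmax.le_iff.1 hle with h1 | h1
  · exfalso
    apply hw1
    haveI : R.Normal := normalizer_eq_top_iff.1 h1
    have h3 : R ≤ M.normalCore := normal_le_normalCore.2 hRM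
    rw [hcore] at h3
    exact mem_bot.1 (h3 hw)
  · rw [← h1]
    exact hg

/-- Isolation if `|M|` has two prime divisors. -/
theorem good_of_two [Finite M] [Group.IsNilpotent M] (hmax : IsCoatom M)
    (hcore : M.normalCore = ⊥) {p r : ℕ} (hp : p.Prime) (hr : r.Prime) (hpr : p ≠ r)
    (hrM : r ∣ Nat.card M) {z : G} (hz : z ∈ M) (hzo : orderOf z = p)
    (hcen : ∀ m ∈ M, m * z = z * m) : Good M p z := by
  haveI : Fact r.Prime := ⟨hr⟩
  have hz1 : z ≠ 1 := by
    intro h
    rw [h, orderOf_one] at hzo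
    exact hp.one_lt.ne hzo
  refine ⟨hz, hzo, hcen, ?_⟩
  intro g hg
  obtain ⟨R1⟩ : Nonempty (Sylow r M) := inferInstance
  have hR1 := nil_sylow r R1
  set R : Subgroup G := (R1 : Subgroup M).map M.subtype with hR
  have hRmem : ∀ x, x ∈ R ↔ x ∈ M ∧ ∃ k : ℕ, x ^ r ^ k = 1 := by
    intro x
    constructor
    · rintro ⟨y, hy, rfl⟩
      obtain ⟨k, hk⟩ := (hR1 y).1 hy
      exact ⟨y.2, k, by simpa using congrArg Subtype.val hk⟩
    · rintro ⟨hx, k, hk⟩
      refine ⟨⟨x, hx⟩, (hR1 _).2 ⟨k, Subtype.ext ?_⟩, rfl⟩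
      push_cast
      exact hk
  have hRM : R ≤ M := fun x hx => ((hRmem x).1 hx).1
  have hRn : ∀ m ∈ M, ∀ x ∈ R, m * x * m⁻¹ ∈ R := by
    intro m hm x hx
    obtain ⟨hxM, k, hk⟩ := (hRmem x).1 hx
    refine (hRmem _).2 ⟨M.mul_mem (M.mul_mem hm hxM) (M.inv_mem hm), k, ?_⟩
    rw [conj_pow, hk, mul_one, mul_inv_cancel]
  obtain ⟨w, hw⟩ := exists_prime_orderOf_dvd_card' (G := M) r hrM
  have hwR : (w : G) ∈ R := by
    refine (hRmem _).2 ⟨w.2, 1, ?_⟩
    have : w ^ r ^ 1 = 1 := by rw [pow_one, ← hw, pow_orderOf_eq_one]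
    exact congrArg Subtype.val this
  have hw1 : (w : G) ≠ 1 := by
    intro h
    have : w = 1 := Subtype.ext h
    rw [this, orderOf_one] at hw
    exact hr.one_lt.ne hw
  -- `g⁻¹ R g ≤ R`
  have hconj : ∀ x ∈ R, g⁻¹ * x * g ∈ R := by
    intro x hx
    obtain ⟨hxM, k, hk⟩ := (hRmem x).1 hx
    have h1 : (⟨g * z * g⁻¹, hg⟩ : M) * ⟨x, hxM⟩ = ⟨x, hxM⟩ * ⟨g * z * g⁻¹, hg⟩ := by
      apply nil_comm
      rw [Subgroup.orderOf_mk, Subgroup.orderOf_mk]
      have : g * z * g⁻¹ = MulAut.conj g z := by simp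
      rw [this, MulEquiv.orderOf_eq, hzo]
      exact (Nat.Coprime.pow_right k ((Nat.coprime_primes hp hr).2 hpr)).coprime_dvd_right
        (orderOf_dvd_of_pow_eq_one hk)
    have h2 : g * z * g⁻¹ * x = x * (g * z * g⁻¹) := congrArg Subtype.val h1
    have h3 : (g⁻¹ * x * g) * z = z * (g⁻¹ * x * g) := by
      calc (g⁻¹ * x * g) * z = g⁻¹ * (x * (g * z * g⁻¹)) * g := by group
        _ = g⁻¹ * (g * z * g⁻¹ * x) * g := by rw [h2]
        _ = _ := by group
    refine (hRmem _).2 ⟨cen_max hmax hcore hz hz1 hcen _ h3, k, ?_⟩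
    have h4 := conj_pow (i := r ^ k) (a := g⁻¹) (b := x)
    rw [inv_inv] at h4
    rw [h4, hk, mul_one, inv_mul_cancel]
  apply nor_max hmax hcore R hRM hRn hwR hw1
  have hRf : Finite R := Finite.of_injective (inclusion hRM) (inclusion_injective hRM)
  have h5 : g⁻¹ ∈ normalizer (R : Set G) := by
    rw [mem_normalizer_iff]
    intro x
    constructor
    · intro hx
      have := hconj x hx
      rwa [inv_inv]
    · intro hx
      rw [inv_inv] at hx
      have hinj : Function.Injective (fun y : R => (⟨g⁻¹ * (y : G) * g, hconj _ y.2⟩ : R)) := by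
        intro y1 y2 h12
        have : g⁻¹ * (y1 : G) * g = g⁻¹ * (y2 : G) * g := congrArg Subtype.val h12
        exact Subtype.ext (by simpa using this)
      obtain ⟨y, hy⟩ := (Finite.surjective_of_injective hinj) ⟨_, hx⟩
      have h1 : g⁻¹ * (y : G) * g = g⁻¹ * x * g := congrArg Subtype.val hy
      have h2 : (y : G) = x := by simpa using h1
      rw [← h2]
      exact y.2
  have h6 := inv_mem h5
  rwa [inv_inv] at h6

end Pool.Agent.Helper4.BM
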