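import Pool.Agent.Helper4.BM.Nil

/-!
The finite group generated by two conjugates of a good element.
-/

namespace Pool.Agent.Helper4.BM

open Subgroup

variable {G : Type*} [Group G] {M : Subgroup G}

theorem nil_of_injective {A B : Type*} [Group A] [Group B] (h : Group.IsNilpotent B) (f : A →* B)
    (hf : Function.Injective f) : Group.IsNilpotent A := by
  haveI := h
  apply Subgroup.isNilpotent_of_ker_le_center f
  rw [(MonoidHom.ker_eq_bot_iff f).2 hf]
  exact bot_le

theorem nil_subgroupOf [h : Group.IsNilpotent M] (K : Subgroup G) :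
    Group.IsNilpotent (M.subgroupOf K) := by
  let f : M.subgroupOf K →* M :=
    { toFun := fun y => ⟨((y : K) : G), mem_subgroupOf.1 y.2⟩
      map_one' := rfl
      map_mul' := fun _ _ => rfl }
  have hf : Function.Injective f := by
    intro y1 y2 h12
    have : ((y1 : K) : G) = ((y2 : K) : G) := congrArg (fun t : M => (t : G)) h12
    exact Subtype.ext (Subtype.ext this)
  exact nil_of_injective h f hf

theorem good_subgroupOf {p : ℕ} {z : G} (hz : Good M p z) (K : Subgroup G) (hzK : z ∈ K) :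
    Good (M.subgroupOf K) p (⟨z, hzK⟩ : K) := by
  refine ⟨mem_subgroupOf.2 hz.mem, ?_, ?_, ?_⟩
  · rw [Subgroup.orderOf_mk]; exact hz.ord
  · intro m hm
    exact Subtype.ext (hz.cen _ (mem_subgroupOf.1 hm))
  · intro g hg
    rw [mem_subgroupOf] at hg ⊢
    exact hz.iso _ hg

/-- The elements of order prime to `p` of `⟨z, z^x⟩`. -/
theorem kernel [Finite M] [Group.IsNilpotent M] {p : ℕ} [hp : Fact p.Prime] {z : G}
    (hz : Good M p z) (x : G) (K : Subgroup G) (hK : K = closure ({z, x * z * x⁻¹} : Set G))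
    (hfin : Finite K) :
    ∃ N : Subgroup G, N ≤ K ∧ (∀ n ∈ K, n ∈ N ↔ (orderOf n).Coprime p) ∧
      x * z * x⁻¹ * z⁻¹ ∈ N ∧ ∀ k ∈ K, ∃ i : ℤ, ∃ n ∈ N, k = n * z ^ i := by
  have hzK : z ∈ K := by rw [hK]; exact subset_closure (by simp)
  have hwK : x * z * x⁻¹ ∈ K := by rw [hK]; exact subset_closure (by simp)
  set z' : K := ⟨z, hzK⟩ with hz'
  set w' : K := ⟨x * z * x⁻¹, hwK⟩ with hw'
  haveI := nil_subgroupOf (M := M) K
  have hgood := good_subgroupOf hz K hzK
  obtain ⟨hPC, P, hPH, hzP⟩ := good_pc (M.subgroupOf K) hgood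
  obtain ⟨L, hL⟩ := frobenius hPC
  have hLn : L.Normal := by
    constructor
    intro l hl g
    rw [hL] at hl ⊢
    have : g * l * g⁻¹ = MulAut.conj g l := by simp
    rw [this, MulEquiv.orderOf_eq]
    exact hl
  have hq : IsPGroup p (K ⧸ L) := by
    intro q
    obtain ⟨g, rfl⟩ := QuotientGroup.mk_surjective q
    obtain ⟨a, ha⟩ := exists_ppart hp.out (g := g) (orderOf_pos _).ne'
    refine ⟨a, ?_⟩
    rw [← QuotientGroup.mk_pow, QuotientGroup.eq_one_iff, hL]
    exact ha
  have htop : L ⊔ (P : Subgroup K) = ⊤ := by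
    rw [← index_eq_one]
    obtain ⟨k, hk⟩ := hq.exists_card_eq
    have h1 : (L ⊔ (P : Subgroup K)).index ∣ p ^ k := by
      rw [← hk]
      exact index_dvd_of_le le_sup_left
    have h2 : (L ⊔ (P : Subgroup K)).index ∣ (P : Subgroup K).index := index_dvd_of_le le_sup_right
    rw [Nat.dvd_prime_pow hp.out] at h1
    obtain ⟨j, -, hj⟩ := h1
    rcases Nat.eq_zero_or_pos j with h0 | h0
    · rw [hj, h0, pow_zero]
    · exfalso
      apply P.not_dvd_index
      refine dvd_trans ?_ h2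
      rw [hj]
      exact dvd_pow_self p h0.ne'
  have hcen : ∀ k : K, k * z' * k⁻¹ * z'⁻¹ ∈ L := by
    intro k
    have hk : k ∈ L ⊔ (P : Subgroup K) := by rw [htop]; exact mem_top k
    rw [mem_sup_of_normal_left] at hk
    obtain ⟨l, hl, s, hs, rfl⟩ := hk
    have h1 := hgood.cen s (hPH hs)
    have h2 : (l * s) * z' * (l * s)⁻¹ * z'⁻¹ = l * (z' * l⁻¹ * z'⁻¹) := by
      calc (l * s) * z' * (l * s)⁻¹ * z'⁻¹ = l * (s * z') * s⁻¹ * l⁻¹ * z'⁻¹ := by group
        _ = l * (z' * s) * s⁻¹ * l⁻¹ * z'⁻¹ := by rw [h1]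
        _ = _ := by group
    rw [h2]
    exact L.mul_mem hl (hLn.conj_mem _ (L.inv_mem hl) z')
  have hw : w' * z'⁻¹ ∈ L := by
    have hpw : IsPGroup p (zpowers w') := by
      apply IsPGroup.of_card (n := 1)
      rw [Nat.card_zpowers, hw', Subgroup.orderOf_mk, pow_one]
      have : x * z * x⁻¹ = MulAut.conj x z := by simp
      rw [this, MulEquiv.orderOf_eq]
      exact hz.ord
    obtain ⟨Q, hQ⟩ := hpw.exists_le_sylow
    obtain ⟨k, hk⟩ := MulAction.exists_smul_eq K Q P
    have h1 : k * w' * k⁻¹ ∈ ((k • Q : Sylow p K) : Subgroup K) := by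
      rw [Sylow.coe_subgroup_smul]
      exact Subgroup.smul_mem_pointwise_smul _ (MulAut.conj k) _ (hQ (mem_zpowers w'))
    rw [hk] at h1
    have h2 := mem_subgroupOf.1 (hPH h1)
    have h3 : ((k : G) * x) * z * ((k : G) * x)⁻¹ ∈ M := by
      have : ((k : G) * x) * z * ((k : G) * x)⁻¹ = ((k * w' * k⁻¹ : K) : G) := by
        rw [hw']; push_cast; group
      rw [this]
      exact h2
    have h4 := hz.conj h3
    have h5 : w' = k⁻¹ * z' * (k⁻¹)⁻¹ := by
      apply Subtype.ext
      rw [hw', hz']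
      push_cast
      calc x * z * x⁻¹ = (k : G)⁻¹ * (((k : G) * x) * z * ((k : G) * x)⁻¹) * (k : G) := by group
        _ = (k : G)⁻¹ * z * (k : G) := by rw [h4]
        _ = _ := by group
    rw [h5]
    exact hcen k⁻¹
  have hgen : L ⊔ zpowers z' = ⊤ := by
    have h1 : closure ({z', w'} : Set K) ≤ L ⊔ zpowers z' := by
      rw [closure_le]
      rintro y (rfl | rfl)
      · exact (le_sup_right : zpowers z' ≤ L ⊔ zpowers z') (mem_zpowers z')
      · have h2 : w' = (w' * z'⁻¹) * z' := by group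
        rw [h2]
        exact mul_mem ((le_sup_left : L ≤ L ⊔ zpowers z') hw)
          ((le_sup_right : zpowers z' ≤ L ⊔ zpowers z') (mem_zpowers z'))
    have h2 : closure ({z', w'} : Set K) = ⊤ := by
      apply map_injective K.subtype_injective
      rw [MonoidHom.map_closure, Set.image_pair, ← MonoidHom.range_eq_map, range_subtype]
      exact hK.symm
    rw [h2] at h1
    exact top_le_iff.1 h1
  refine ⟨L.map K.subtype, ?_, ?_, ?_, ?_⟩
  · rintro _ ⟨y, -, rfl⟩
    exact y.2
  · intro n hn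
    constructor
    · rintro ⟨y, hy, rfl⟩
      have := (hL y).1 hy
      rwa [← orderOf_coe] at this
    · intro h
      refine ⟨⟨n, hn⟩, (hL _).2 ?_, rfl⟩
      rw [Subgroup.orderOf_mk]
      exact h
  · exact ⟨w' * z'⁻¹, hw, rfl⟩
  · intro k hk
    have h1 : (⟨k, hk⟩ : K) ∈ L ⊔ zpowers z' := by rw [hgen]; exact mem_top _
    rw [mem_sup_of_normal_left] at h1
    obtain ⟨l, hl, s, hs, hls⟩ := h1
    obtain ⟨i, rfl⟩ := mem_zpowers_iff.1 hs
    refine ⟨i, l, ⟨l, hl, rfl⟩, ?_⟩
    have := congrArg Subtype.val hls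
    simpa using this.symm

end Pool.Agent.Helper4.BM
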