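import Pool.Agent.Helper4.BM.Sec
import Pool.Agent.Helper4.BM.Cop

/-!
Theorem X: the normal complement for pairs `(G, M)` with `HX M`.
-/

namespace Pool.Agent.Helper4.BM

open Subgroup

universe u

/-- The conclusion of the theorem. -/
def XC {G : Type*} [Group G] (M : Subgroup G) : Prop :=
  ∀ p : ℕ, p.Prime → p ∣ Nat.card M → ∀ z, Good M p z → ∃ F : Subgroup G, Compl M p z F

/-- The hypothesis of the induction. -/
def IH {G : Type u} [Group G] (M : Subgroup G) : Prop :=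
  ∀ (G' : Type u) [Group G'] (M' : Subgroup G'), HX M' → Nat.card M' < Nat.card M → XC M'

theorem ppow_one {G : Type*} [Group G] {q : ℕ} {x : G} (hx : (orderOf x).Coprime q) {k : ℕ}
    (hk : x ^ q ^ k = 1) : x = 1 := by
  rw [← orderOf_dvd_iff_pow_eq_one] at hk
  rw [← orderOf_eq_one_iff]
  exact Nat.eq_one_of_dvd_coprimes (Nat.Coprime.pow_right k hx) dvd_rfl hk

/-- `z`-invariant `q`-subgroups meeting `M` nontrivially lie in `M`. -/
theorem inv_le {G : Type u} [Group G] {M : Subgroup G} (h : HX M) (ih : IH M) {p q : ℕ}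
    (hp : p.Prime) (hq : q.Prime) (hpq : p ≠ q) {z : G} (hz : Good M p z)
    (S : Subgroup G) (hSf : Finite S) (hS : IsPGroup q S) (hSz : ∀ s ∈ S, z * s * z⁻¹ ∈ S)
    (w0 : G) (hw0S : w0 ∈ S) (hw0M : w0 ∈ M) (hw01 : w0 ≠ 1) : S ≤ M := by
  haveI := h.fin
  haveI := h.nil
  haveI : Fact q.Prime := ⟨hq⟩
  haveI : Fact p.Prime := ⟨hp⟩
  by_contra hSM
  set D : Subgroup G := S ⊓ M with hD
  have hDS : D < S := by
    refine lt_of_le_of_ne inf_le_left ?_
    intro he
    apply hSM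
    rw [← he]
    exact inf_le_right
  obtain ⟨x, hxS, hxD, hx⟩ := exists_growth D S hS hDS
  have hxM : x ∉ M := fun hxM => hxD ⟨hxS, hxM⟩
  have hDf : Finite D := Finite.of_injective (inclusion (inf_le_left : D ≤ S))
    (inclusion_injective _)
  -- a fixed point of `x` on `D`
  have hxN : x ∈ normalizer (D : Set G) := mem_normalizer_iff.2 hx
  obtain ⟨w1, hw1D, hw11, hxw1⟩ : ∃ w1 ∈ D, w1 ≠ 1 ∧ x * w1 = w1 * x := by
    let X := normalizer (D : Set G)
    have hact : ∀ g : X, ∀ d : D, (g : G) * d * (g : G)⁻¹ ∈ D := fun g d =>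
      ((mem_normalizer_iff.1 g.2) d).1 d.2
    letI : MulAction X D :=
      { smul := fun g d => ⟨(g : G) * d * (g : G)⁻¹, hact g d⟩
        one_smul := by
          intro d
          apply Subtype.ext
          change ((1 : X) : G) * d * ((1 : X) : G)⁻¹ = d
          simp
        mul_smul := by
          intro a b d
          apply Subtype.ext
          change ((a * b : X) : G) * d * ((a * b : X) : G)⁻¹ =
            (a : G) * ((b : G) * d * (b : G)⁻¹) * (a : G)⁻¹
          push_cast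
          group }
    have hzx : IsPGroup q (zpowers (⟨x, hxN⟩ : X)) := by
      rintro ⟨y, hy⟩
      obtain ⟨j, rfl⟩ := mem_zpowers_iff.1 hy
      obtain ⟨k, hk⟩ := hS ⟨x, hxS⟩
      have hk' : x ^ q ^ k = 1 := congrArg Subtype.val hk
      refine ⟨k, Subtype.ext ?_⟩
      push_cast
      rw [← zpow_natCast, ← zpow_mul, mul_comm, zpow_mul, zpow_natCast]
      have : (⟨x, hxN⟩ : X) ^ q ^ k = 1 := Subtype.ext hk'
      rw [this, one_zpow]
    have hcard : q ∣ Nat.card D := by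
      haveI : Nontrivial D := ⟨⟨w0, ⟨hw0S, hw0M⟩⟩, 1, fun h => hw01 (congrArg Subtype.val h)⟩
      obtain ⟨n, hn0, hn⟩ := (hS.to_le (inf_le_left : D ≤ S)).nontrivial_iff_card.1 inferInstance
      rw [hn]
      exact dvd_pow_self q hn0.ne'
    have hfix1 : (1 : D) ∈ MulAction.fixedPoints (zpowers (⟨x, hxN⟩ : X)) D := by
      intro g
      apply Subtype.ext
      change ((g : X) : G) * ((1 : D) : G) * ((g : X) : G)⁻¹ = ((1 : D) : G)
      simp
    obtain ⟨b, hb, hb1⟩ := hzx.exists_fixed_point_of_prime_dvd_card_of_fixed_point D hcard hfix1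
    refine ⟨b, b.2, fun h => hb1 (Subtype.ext h.symm), ?_⟩
    have h1 := congrArg Subtype.val (hb ⟨⟨x, hxN⟩, mem_zpowers _⟩)
    have h2 : x * (b : G) * x⁻¹ = b := h1
    exact mul_inv_eq_iff_eq_mul.1 h2
  -- a power of order `q`
  obtain ⟨w, hwD, hwo, hxw⟩ : ∃ w ∈ D, orderOf w = q ∧ x * w = w * x := by
    obtain ⟨k, hk⟩ := hS ⟨w1, hw1D.1⟩
    have hk' : w1 ^ q ^ k = 1 := congrArg Subtype.val hk
    have h1 : orderOf w1 ∣ q ^ k := orderOf_dvd_of_pow_eq_one hk'
    obtain ⟨j, -, hj⟩ := (Nat.dvd_prime_pow hq).1 h1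
    have hj0 : j ≠ 0 := by
      rintro rfl
      rw [pow_zero, orderOf_eq_one_iff] at hj
      exact hw11 hj
    refine ⟨w1 ^ q ^ (j - 1), D.pow_mem hw1D _, ?_, ?_⟩
    · rw [orderOf_pow_of_dvd (pow_ne_zero _ hq.ne_zero) (by
        rw [hj]; exact pow_dvd_pow q (Nat.sub_le j 1)), hj]
      rw [Nat.pow_div (Nat.sub_le j 1) hq.pos]
      have : j - (j - 1) = 1 := by omega
      rw [this, pow_one]
    · have h2 : Commute x w1 := hxw1
      exact h2.pow_right _
  set E : Subgroup G := zpowers w with hE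
  have hEM : E ≤ M := by rw [hE, zpowers_le]; exact hwD.2
  have hwE : w ∈ E := mem_zpowers w
  have hw1 : w ≠ 1 := by
    intro h1
    rw [h1, orderOf_one] at hwo
    exact hq.one_lt.ne hwo
  have hxE : ∀ e ∈ E, x * e = e * x := by
    intro e he
    obtain ⟨j, rfl⟩ := mem_zpowers_iff.1 he
    have h2 : Commute x w := hxw
    exact h2.zpow_right j
  have hgE : ∀ (r : ℕ) (y : G), Good M r y → y ∉ E := by
    intro r y hy hyE
    exact hxM (hy.comm (hxE y hyE))
  have hsec : HX (Sec M E) := by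
    apply h.sec hEM
    intro r hr hrM
    obtain ⟨-, y, hy⟩ := h.iso r hr hrM
    exact ⟨y, hy, hgE r y hy⟩
  have hlt := card_sec_lt h.fin hEM hwE hw1
  have hXC := ih _ (Sec M E) hsec hlt
  haveI := hsec.fin
  have hqM : q ∣ Nat.card M := by
    have h1 := orderOf_dvd_natCard (⟨w, hwD.2⟩ : M)
    rwa [Subgroup.orderOf_mk, hwo] at h1
  obtain ⟨-, y, hy⟩ := h.iso q hq hqM
  obtain ⟨hzN, hzs⟩ := good_sec hEM hp hz (hgE p z hz)
  obtain ⟨hyN, hys⟩ := good_sec hEM hq hy (hgE q y hy)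
  have hdiv : ∀ (r : ℕ) (t : normalizer (E : Set G) ⧸ E.subgroupOf (normalizer (E : Set G))),
      Good (Sec M E) r t → r ∣ Nat.card (Sec M E) := by
    intro r t ht
    have h1 := orderOf_dvd_natCard (⟨t, ht.mem⟩ : Sec M E)
    rwa [Subgroup.orderOf_mk, ht.ord] at h1
  obtain ⟨F1, hF1⟩ := hXC p hp (hdiv p _ hzs) _ hzs
  obtain ⟨F2, hF2⟩ := hXC q hq (hdiv q _ hys) _ hys
  have hF12 : F1 ≤ F2 := hF2.le hF1 hzs
  have hxNE : x ∈ normalizer (E : Set G) := by
    rw [mem_normalizer_iff]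
    intro e
    constructor
    · intro he
      rw [hxE e he, mul_inv_cancel_right]
      exact he
    · intro he
      have h1 := hxE _ he
      have h2 : e = x⁻¹ * (x * e * x⁻¹) * x := by group
      rw [h2, mul_assoc, ← h1, ← mul_assoc, inv_mul_cancel, one_mul]
      exact he
  have hcS : x * z * x⁻¹ * z⁻¹ ∈ S := by
    have h1 := hSz _ (S.inv_mem hxS)
    have h2 : x * z * x⁻¹ * z⁻¹ = x * (z * x⁻¹ * z⁻¹) := by group
    rw [h2]
    exact S.mul_mem hxS h1
  set x' : normalizer (E : Set G) := ⟨x, hxNE⟩ with hx'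
  set z' : normalizer (E : Set G) := ⟨z, hzN⟩ with hz'
  have hmem : (QuotientGroup.mk (x' * z' * x'⁻¹ * z'⁻¹) : normalizer (E : Set G) ⧸
      E.subgroupOf (normalizer (E : Set G))) ∈ F2 := by
    apply hF12
    rw [hF1.mem]
    exact ⟨QuotientGroup.mk x', rfl⟩
  have hcE : x * z * x⁻¹ * z⁻¹ ∈ E := by
    obtain ⟨k, hk⟩ := hS ⟨_, hcS⟩
    have hk' : (x * z * x⁻¹ * z⁻¹) ^ q ^ k = 1 := congrArg Subtype.val hk
    have h1 : (QuotientGroup.mk (x' * z' * x'⁻¹ * z'⁻¹) : normalizer (E : Set G) ⧸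
        E.subgroupOf (normalizer (E : Set G))) = 1 := by
      apply ppow_one (hF2.cop _ hmem) (k := k)
      rw [← QuotientGroup.mk_pow]
      have : (x' * z' * x'⁻¹ * z'⁻¹) ^ q ^ k = 1 := Subtype.ext hk'
      rw [this]
      rfl
    rw [QuotientGroup.eq_one_iff, mem_subgroupOf] at h1
    exact h1
  -- `[x, z]` commutes with `z`
  have h3 : Commute (x * z * x⁻¹ * z⁻¹) z := hz.cen _ (hEM hcE)
  have h4 : (x * z * x⁻¹ * z⁻¹) ^ p = 1 := by
    have h5 : (x * z * x⁻¹ * z⁻¹ * z) ^ p = 1 := by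
      have : x * z * x⁻¹ * z⁻¹ * z = x * z * x⁻¹ := by group
      rw [this, conj_pow, ← hz.ord, pow_orderOf_eq_one, mul_one, mul_inv_cancel]
    rw [h3.mul_pow] at h5
    have h6 : z ^ p = 1 := by rw [← hz.ord, pow_orderOf_eq_one]
    rw [h6, mul_one] at h5
    exact h5
  have h7 : x * z * x⁻¹ * z⁻¹ = 1 := by
    obtain ⟨k, hk⟩ := hS ⟨_, hcS⟩
    have hk' : (x * z * x⁻¹ * z⁻¹) ^ q ^ k = 1 := congrArg Subtype.val hk
    apply ppow_one (q := q) _ hk'
    exact ((Nat.coprime_primes hp hq).2 hpq).coprime_dvd_left (orderOf_dvd_of_pow_eq_one h4)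
  apply hxM
  apply hz.comm
  have h8 := mul_inv_eq_one.1 h7
  exact mul_inv_eq_iff_eq_mul.1 h8

/-- Elements of order prime to `q` normalising a `q`-subgroup of `M` centralise it. -/
theorem cen_of_norm {G : Type u} [Group G] {M : Subgroup G} (h : HX M) (ih : IH M) {p q : ℕ}
    (hp : p.Prime) (hq : q.Prime) {z : G} (hz : Good M p z)
    (E : Subgroup G) (hEM : E ≤ M) (hE : IsPGroup q E) (g : G)
    (hgE : ∀ x ∈ E, g * x * g⁻¹ ∈ E) (hg : (orderOf g).Coprime q) : ∀ x ∈ E, g * x = x * g := by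
  haveI := h.fin
  haveI := h.nil
  haveI : Fact q.Prime := ⟨hq⟩
  have hEf : Finite E := Finite.of_injective (inclusion hEM) (inclusion_injective _)
  by_cases htriv : ∀ x ∈ E, x = 1
  · intro x hx
    rw [htriv x hx, mul_one, one_mul]
  push Not at htriv
  obtain ⟨w, hwE, hw1⟩ := htriv
  by_cases hgood : ∃ (r : ℕ) (y : G), Good M r y ∧ y ∈ E
  · obtain ⟨r, y, hy, hyE⟩ := hgood
    have hgM : g ∈ M := hy.iso g (hEM (hgE y hyE))
    exact act_trivial hq E hEM hE g g hgM hgE (fun x _ => rfl) hg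
  push Not at hgood
  have hsec : HX (Sec M E) := by
    apply h.sec hEM
    intro r hr hrM
    obtain ⟨-, y, hy⟩ := h.iso r hr hrM
    exact ⟨y, hy, hgood r y hy⟩
  have hlt := card_sec_lt h.fin hEM hwE hw1
  have hXC := ih _ (Sec M E) hsec hlt
  haveI := hsec.fin
  obtain ⟨hzN, hzs⟩ := good_sec hEM hp hz (hgood p z hz)
  have hdiv : p ∣ Nat.card (Sec M E) := by
    have h1 := orderOf_dvd_natCard (⟨_, hzs.mem⟩ : Sec M E)
    rwa [Subgroup.orderOf_mk, hzs.ord] at h1
  obtain ⟨F1, hF1⟩ := hXC p hp hdiv _ hzs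
  have hgN : g ∈ normalizer (E : Set G) := by
    rw [mem_normalizer_iff]
    intro e
    refine ⟨hgE e, fun he => ?_⟩
    have hinj : Function.Injective (fun y : E => (⟨g * (y : G) * g⁻¹, hgE _ y.2⟩ : E)) := by
      intro y1 y2 h12
      have : g * (y1 : G) * g⁻¹ = g * (y2 : G) * g⁻¹ := congrArg Subtype.val h12
      exact Subtype.ext (by simpa using this)
    obtain ⟨y, hy⟩ := (Finite.surjective_of_injective hinj) ⟨_, he⟩
    have h1 : g * (y : G) * g⁻¹ = g * e * g⁻¹ := congrArg Subtype.val hy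
    have h2 : (y : G) = e := by simpa using h1
    rw [← h2]
    exact y.2
  set g' : normalizer (E : Set G) := ⟨g, hgN⟩ with hg'
  obtain ⟨f, hf, m, hm, hfm⟩ := hF1.top (QuotientGroup.mk g')
  obtain ⟨y, rfl⟩ := (hF1.mem f).1 hf
  obtain ⟨y, rfl⟩ := QuotientGroup.mk_surjective y
  obtain ⟨m, rfl⟩ := QuotientGroup.mk_surjective m
  have hmM := (mem_sec hEM m).1 hm
  -- `g = [y, z] m e`
  set z' : normalizer (E : Set G) := ⟨z, hzN⟩ with hz'
  have h1 : (QuotientGroup.mk g' : normalizer (E : Set G) ⧸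
      E.subgroupOf (normalizer (E : Set G))) = QuotientGroup.mk (y * z' * y⁻¹ * z'⁻¹ * m) := hfm
  rw [eq_comm, QuotientGroup.eq, mem_subgroupOf] at h1
  push_cast at h1
  set e : G := ((y : G) * (z' : G) * (y : G)⁻¹ * (z' : G)⁻¹ * (m : G))⁻¹ * (g' : G) with he
  have heE : e ∈ E := h1
  have hge : g = (y : G) * z * (y : G)⁻¹ * z⁻¹ * ((m : G) * e) := by
    rw [he]
    simp only [hg', hz']
    group
  apply act_trivial hq E hEM hE g ((m : G) * e) (M.mul_mem hmM (hEM heE)) hgE ?_ hg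
  intro x hx
  -- `c = [y, z]` centralises `E`
  have hzE : ∀ t ∈ E, z * t = t * z := fun t ht => (hz.cen t (hEM ht)).symm
  have hcE : ∀ t ∈ E, ((y : G) * z * (y : G)⁻¹ * z⁻¹) * t = t * ((y : G) * z * (y : G)⁻¹ * z⁻¹) := by
    intro t ht
    have h2 : (y : G)⁻¹ * t * (y : G) ∈ E := by
      have := ((mem_normalizer_iff.1 (inv_mem y.2)) t).1 ht
      rwa [inv_inv] at this
    have h3 := hzE _ h2
    have h4 := hzE t ht
    have h5 : z⁻¹ * t = t * z⁻¹ := by
      rw [inv_mul_eq_iff_eq_mul, ← mul_assoc, h4, mul_assoc, mul_inv_cancel, mul_one]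
    calc ((y : G) * z * (y : G)⁻¹ * z⁻¹) * t = (y : G) * z * (y : G)⁻¹ * (z⁻¹ * t) := by group
      _ = (y : G) * z * (y : G)⁻¹ * (t * z⁻¹) := by rw [h5]
      _ = (y : G) * (z * ((y : G)⁻¹ * t * (y : G))) * (y : G)⁻¹ * z⁻¹ := by group
      _ = (y : G) * (((y : G)⁻¹ * t * (y : G)) * z) * (y : G)⁻¹ * z⁻¹ := by rw [h3]
      _ = _ := by group
  have hmx : (m : G) * e * x * ((m : G) * e)⁻¹ ∈ E := by
    have h2 : e * x * e⁻¹ ∈ E := E.mul_mem (E.mul_mem heE hx) (E.inv_mem heE)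
    have h3 := ((mem_normalizer_iff.1 m.2) (e * x * e⁻¹)).1 h2
    have h4 : (m : G) * e * x * ((m : G) * e)⁻¹ = (m : G) * (e * x * e⁻¹) * (m : G)⁻¹ := by group
    rw [h4]
    exact h3
  have h6 := hcE _ hmx
  calc g * x * g⁻¹ = ((y : G) * z * (y : G)⁻¹ * z⁻¹) * ((m : G) * e * x * ((m : G) * e)⁻¹) *
        ((y : G) * z * (y : G)⁻¹ * z⁻¹)⁻¹ := by
        conv_lhs => rw [hge]
        group
    _ = (m : G) * e * x * ((m : G) * e)⁻¹ := by rw [h6, mul_inv_cancel_right]

/-- Regularity. -/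
theorem reg_of {G : Type u} [Group G] {M : Subgroup G} (h : HX M) (ih : IH M) {p : ℕ}
    (hp : p.Prime) (hpM : p ∣ Nat.card M) {z : G} (hz : Good M p z) : Reg M p z := by
  haveI := h.fin
  haveI := h.nil
  haveI : Fact p.Prime := ⟨hp⟩
  refine { hz with ker := ?_ }
  intro x
  set K : Subgroup G := closure ({z, x * z * x⁻¹} : Set G) with hK
  have hz1 : z ≠ 1 := by
    intro h1
    have := hz.ord
    rw [h1, orderOf_one] at this
    exact hp.one_lt.ne this
  have hKf : Finite K := by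
    have hbot : ∀ g : G, g ∈ normalizer ((⊥ : Subgroup G) : Set G) := by
      intro g
      rw [mem_normalizer_iff]
      intro y
      simp
    have h1 := h.cb ⊥ inferInstance z x (hbot z) (hbot x) p hp
      (by rw [mem_bot, ← hz.ord, pow_orderOf_eq_one]) (by rw [mem_bot]; exact hz1)
    have h2 : K ≤ closure (((⊥ : Subgroup G) : Set G) ∪ {z, x * z * x⁻¹}) :=
      closure_mono Set.subset_union_right
    exact Finite.of_injective (inclusion h2) (inclusion_injective h2)
  obtain ⟨N, hNK, hNmem, hwN, hKN⟩ := kernel hz x K hK hKf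
  have hzK : z ∈ K := subset_closure (by simp)
  have hwK : x * z * x⁻¹ ∈ K := subset_closure (by simp)
  have hNf : Finite N := Finite.of_injective (inclusion hNK) (inclusion_injective _)
  have hKnorm : ∀ k ∈ K, ∀ n ∈ N, k * n * k⁻¹ ∈ N := by
    intro k hk n hn
    have h1 := (hNmem n (hNK hn)).1 hn
    rw [hNmem _ (K.mul_mem (K.mul_mem hk (hNK hn)) (K.inv_mem hk))]
    have : k * n * k⁻¹ = MulAut.conj k n := by simp
    rw [this, MulEquiv.orderOf_eq]
    exact h1
  have hcop : ∀ n ∈ N, (orderOf n).Coprime p := fun n hn => (hNmem n (hNK hn)).1 hn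
  refine ⟨N, hNf, hKnorm z hzK, hKnorm _ hwK, hwN, ?_, hcop⟩
  by_contra hcon
  push Not at hcon
  obtain ⟨w1, hw1N, hw1M, hw11⟩ := hcon
  -- an element of prime order `q`
  have hord : orderOf w1 ≠ 1 := by rw [Ne, orderOf_eq_one_iff]; exact hw11
  set q := (orderOf w1).minFac with hqdef
  have hq : q.Prime := Nat.minFac_prime hord
  haveI : Fact q.Prime := ⟨hq⟩
  have hw1pos : orderOf w1 ≠ 0 := by
    have := (h.tors w1).orderOf_pos
    omega
  set w := w1 ^ (orderOf w1 / q) with hw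
  have hwo : orderOf w = q := orderOf_pow_orderOf_div hw1pos (Nat.minFac_dvd _)
  have hwN : w ∈ N := N.pow_mem hw1N _
  have hwM : w ∈ M := M.pow_mem hw1M _
  have hw1 : w ≠ 1 := by
    intro h1
    rw [h1, orderOf_one] at hwo
    exact hq.one_lt.ne hwo
  have hpq : p ≠ q := by
    intro he
    have h1 := hcop w hwN
    rw [hwo, ← he] at h1
    exact hp.one_lt.ne' ((Nat.coprime_self p).1 h1)
  have hpN : ¬ p ∣ Nat.card N := by
    intro hd
    obtain ⟨t, ht⟩ := exists_prime_orderOf_dvd_card' (G := N) p hd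
    have h1 := hcop t t.2
    rw [Subgroup.orderOf_coe, ht] at h1
    exact hp.one_lt.ne' ((Nat.coprime_self p).1 h1)
  have hzN : ∀ y, y ∈ N ↔ z * y * z⁻¹ ∈ N := by
    intro y
    refine ⟨hKnorm z hzK y, fun hy => ?_⟩
    have h1 := hKnorm z⁻¹ (K.inv_mem hzK) _ hy
    have h2 : z⁻¹ * (z * y * z⁻¹) * z⁻¹⁻¹ = y := by group
    rwa [h2] at h1
  obtain ⟨S, hSN, hS, hSz, hwS, hSi⟩ := sylow_inv (q := q) N hNf hpN z hz.ord hzN w hwN hwo
    (hz.cen w hwM).symm
  have hSf : Finite S := Finite.of_injective (inclusion hSN) (inclusion_injective _)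
  have hSM : S ≤ M := inv_le h ih hp hq hpq hz S hSf hS hSz w hwS hwM hw1
  -- the fusion condition for `q`
  have hPC : PC q K := by
    intro E hE g hgE hgo
    -- `E` lies in `N`
    have hEN : E.map K.subtype ≤ N := by
      rintro _ ⟨e, he, rfl⟩
      change (e : G) ∈ N
      rw [hNmem _ e.2]
      obtain ⟨k, hk⟩ := hE ⟨e, he⟩
      have hk' : (e : G) ^ q ^ k = 1 := congrArg (fun t : E => ((t : K) : G)) hk
      have h1 : orderOf (e : G) ∣ q ^ k := orderOf_dvd_of_pow_eq_one hk'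
      exact (Nat.Coprime.pow_left k ((Nat.coprime_primes hq hp).2 hpq.symm)).coprime_dvd_left h1
    obtain ⟨T, hTN, hT, -, hST, n, hn, hnT⟩ := common (p := q) N S (E.map K.subtype) hSN hEN hS
      (hE.map _)
    have hTS : T ≤ S := by
      have hTf : Finite T := Finite.of_injective (inclusion hTN) (inclusion_injective _)
      have h1 : S.relIndex T ∣ S.relIndex N :=
        Dvd.intro _ (relIndex_mul_relIndex S T N hST hTN)
      have h2 : S.relIndex T = 1 := by
        obtain ⟨k, hk⟩ := hT.exists_card_eq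
        have h3 : S.relIndex T ∣ q ^ k := by
          rw [← hk]
          exact relIndex_dvd_card _ _
        obtain ⟨j, -, hj⟩ := (Nat.dvd_prime_pow hq).1 h3
        rcases Nat.eq_zero_or_pos j with h0 | h0
        · rw [hj, h0, pow_zero]
        · exfalso
          apply hSi
          refine dvd_trans ?_ h1
          rw [hj]
          exact dvd_pow_self q h0.ne'
      rwa [relIndex_eq_one] at h2
    set E' : Subgroup G := (E.map K.subtype).map (MulAut.conj n).toMonoidHom with hE'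
    have hE'M : E' ≤ M := by
      rintro _ ⟨e, he, rfl⟩
      exact hSM (hTS (hnT e he))
    have hE'q : IsPGroup q E' := (hE.map _).map _
    have h5 := cen_of_norm h ih hp hq hz E' hE'M hE'q (n * (g : G) * n⁻¹) (by
        rintro _ ⟨_, ⟨e, he, rfl⟩, rfl⟩
        refine ⟨(g : G) * (e : G) * (g : G)⁻¹, ⟨g * e * g⁻¹, hgE e he, by simp⟩, ?_⟩
        simp [mul_assoc]) (by
        have : n * (g : G) * n⁻¹ = MulAut.conj n (g : G) := by simp
        rw [this, MulEquiv.orderOf_eq, Subgroup.orderOf_coe]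
        exact hgo)
    intro e he
    have h6 := h5 (n * (e : G) * n⁻¹) ⟨(e : G), ⟨e, he, rfl⟩, by simp⟩
    have h7 : n * ((g : G) * (e : G)) * n⁻¹ = n * ((e : G) * (g : G)) * n⁻¹ := by
      calc n * ((g : G) * (e : G)) * n⁻¹ = n * (g : G) * n⁻¹ * (n * (e : G) * n⁻¹) := by group
        _ = n * (e : G) * n⁻¹ * (n * (g : G) * n⁻¹) := h6
        _ = _ := by group
    apply Subtype.ext
    push_cast
    simpa using h7
  obtain ⟨L, hL⟩ := frobenius hPC
  have hgen : L = ⊤ := by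
    have h1 : closure ({(⟨z, hzK⟩ : K), (⟨x * z * x⁻¹, hwK⟩ : K)} : Set K) ≤ L := by
      rw [closure_le]
      rintro y (rfl | rfl)
      · rw [SetLike.mem_coe, hL, Subgroup.orderOf_mk, hz.ord]
        exact (Nat.coprime_primes hp hq).2 hpq
      · rw [SetLike.mem_coe, hL, Subgroup.orderOf_mk]
        have : x * z * x⁻¹ = MulAut.conj x z := by simp
        rw [this, MulEquiv.orderOf_eq, hz.ord]
        exact (Nat.coprime_primes hp hq).2 hpq
    have h2 : closure ({(⟨z, hzK⟩ : K), (⟨x * z * x⁻¹, hwK⟩ : K)} : Set K) = ⊤ := by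
      apply map_injective K.subtype_injective
      rw [MonoidHom.map_closure, Set.image_pair, ← MonoidHom.range_eq_map, range_subtype]
      exact hK.symm
    rw [h2] at h1
    exact top_le_iff.1 h1
  have h8 : (⟨w, hNK hwN⟩ : K) ∈ L := by rw [hgen]; exact mem_top _
  rw [hL, Subgroup.orderOf_mk, hwo] at h8
  exact hq.one_lt.ne' ((Nat.coprime_self q).1 h8)

/-- Theorem X. -/
theorem theorem_X : ∀ (n : ℕ) (G : Type u) [Group G] (M : Subgroup G), HX M → Nat.card M ≤ n →
    XC M := by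
  intro n
  induction n using Nat.strong_induction_on with
  | _ n ihn =>
    intro G _ M h hcard p hp hpM z hz
    have ih : IH M := by
      intro G' _ M' h' hlt
      exact ihn (Nat.card M') (lt_of_lt_of_le hlt hcard) G' M' h' le_rfl
    exact (reg_of h ih hp hpM hz).split h.tors hp (h.iso p hp hpM).1

end Pool.Agent.Helper4.BM
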