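import Pool.Agent.Helper4.BM.Frob

/-!
Finite nilpotent groups: elements of coprime order commute, and the action on `p`-subgroups.
-/

namespace Pool.Agent.Helper4.BM

open Subgroup

/-- Elements of coprime order of a nilpotent group commute. -/
theorem nil_comm {M : Type*} [Group M] [h : Group.IsNilpotent M] :
    ∀ x y : M, (orderOf x).Coprime (orderOf y) → x * y = y * x := by
  apply @Group.nilpotent_center_quotient_ind
    (fun M _ _ => ∀ x y : M, (orderOf x).Coprime (orderOf y) → x * y = y * x) M _ _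
  · intro M _ _ x y _
    exact Subsingleton.elim _ _
  · intro M _ _ ih x y hxy
    have h1 := ih (QuotientGroup.mk x) (QuotientGroup.mk y)
      ((hxy.coprime_dvd_left (orderOf_map_dvd (QuotientGroup.mk' (center M)) x)).coprime_dvd_right
        (orderOf_map_dvd (QuotientGroup.mk' (center M)) y))
    rw [← QuotientGroup.mk_mul, ← QuotientGroup.mk_mul, eq_comm, QuotientGroup.eq] at h1
    -- `c = (y x)⁻¹ x y` is central
    set c := (y * x)⁻¹ * (x * y) with hc
    have hcen : ∀ g, g * c = c * g := fun g => mem_center_iff.1 h1 g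
    have hcomm : ∀ g, Commute c g := fun g => (hcen g).symm
    have e1 : x * y = y * x * c := by rw [hc]; group
    have e2 : x * y * x⁻¹ = c * y := by
      rw [e1, mul_assoc y x c, hcen x, ← mul_assoc, mul_inv_cancel_right, hcen y]
    have e3 : y⁻¹ * x * y = c * x := by
      rw [mul_assoc, e1]
      have : y⁻¹ * (y * x * c) = x * c := by group
      rw [this, hcen x]
    have c1 : c ^ orderOf y = 1 := by
      have h2 : (x * y * x⁻¹) ^ orderOf y = 1 := by
        rw [conj_pow, pow_orderOf_eq_one, mul_one, mul_inv_cancel]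
      rw [e2, (hcomm y).mul_pow, pow_orderOf_eq_one, mul_one] at h2
      exact h2
    have c2 : c ^ orderOf x = 1 := by
      have h2 : (y⁻¹ * x * y) ^ orderOf x = 1 := by
        have h3 := conj_pow (i := orderOf x) (a := y⁻¹) (b := x)
        rw [inv_inv] at h3
        rw [h3, pow_orderOf_eq_one, mul_one, inv_mul_cancel]
      rw [e3, (hcomm x).mul_pow, pow_orderOf_eq_one, mul_one] at h2
      exact h2
    have c3 : c = 1 := by
      rw [← orderOf_eq_one_iff]
      exact Nat.eq_one_of_dvd_coprimes hxy (orderOf_dvd_of_pow_eq_one c2)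
        (orderOf_dvd_of_pow_eq_one c1)
    rw [e1, c3, mul_one]

/-- The `p`-elements of a finite nilpotent group form a normal subgroup. -/
theorem nil_sylow {M : Type*} [Group M] [Finite M] [h : Group.IsNilpotent M] (p : ℕ)
    [hp : Fact p.Prime] (P : Sylow p M) :
    ∀ x : M, x ∈ P ↔ ∃ k : ℕ, x ^ p ^ k = 1 := by
  have hn : (P : Subgroup M).Normal := inferInstance
  intro x
  constructor
  · intro hx
    obtain ⟨k, hk⟩ := P.isPGroup' ⟨x, hx⟩
    exact ⟨k, congrArg Subtype.val hk⟩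
  · rintro ⟨k, hk⟩
    have h1 : IsPGroup p (zpowers x) := by
      rintro ⟨y, hy⟩
      obtain ⟨j, rfl⟩ := mem_zpowers_iff.1 hy
      refine ⟨k, Subtype.ext ?_⟩
      push_cast
      rw [← zpow_natCast, ← zpow_mul, mul_comm, zpow_mul, zpow_natCast, hk, one_zpow]
    obtain ⟨Q, hQ⟩ := h1.exists_le_sylow
    obtain ⟨g, hg⟩ := MulAction.exists_smul_eq M P Q
    have h2 : (g • P : Sylow p M) = P := Sylow.smul_eq_of_normal
    rw [← h2, hg]
    exact hQ (mem_zpowers x)

/-- A power of `g` with exponent a power of `p` generates the same subgroup if the order of `g`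
is prime to `p`. -/
theorem comm_of_pow {G : Type*} [Group G] {p : ℕ} {g x : G} {a : ℕ}
    (hg : (orderOf g).Coprime p) (h : g ^ p ^ a * x = x * g ^ p ^ a) : g * x = x * g := by
  have h1 : (p ^ a).Coprime (orderOf g) := (Nat.Coprime.pow_right a hg).symm
  obtain ⟨m, hm⟩ := exists_pow_eq_self_of_coprime h1
  have h2 : Commute (g ^ p ^ a) x := h
  have h3 := h2.pow_left m
  rw [hm] at h3
  exact h3

/-- If `g` acts on the `p`-subgroup `E` of the nilpotent group `M` as an element of `M` and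
has order prime to `p`, then it acts trivially. -/
theorem act_trivial {G : Type*} [Group G] {M : Subgroup G} [Finite M] [Group.IsNilpotent M]
    {p : ℕ} (hp : p.Prime) (E : Subgroup G) (hEM : E ≤ M) (hE : IsPGroup p E)
    (g m : G) (hm : m ∈ M) (hgE : ∀ x ∈ E, g * x * g⁻¹ ∈ E)
    (hgm : ∀ x ∈ E, g * x * g⁻¹ = m * x * m⁻¹) (hg : (orderOf g).Coprime p) :
    ∀ x ∈ E, g * x = x * g := by
  have hpow : ∀ n : ℕ, ∀ x ∈ E, g ^ n * x * (g ^ n)⁻¹ ∈ E ∧
      g ^ n * x * (g ^ n)⁻¹ = m ^ n * x * (m ^ n)⁻¹ := by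
    intro n
    induction n with
    | zero => intro x hx; simpa using hx
    | succ n ih =>
      intro x hx
      obtain ⟨h1, h2⟩ := ih x hx
      have e1 : g ^ (n + 1) * x * (g ^ (n + 1))⁻¹ = g * (g ^ n * x * (g ^ n)⁻¹) * g⁻¹ := by
        rw [pow_succ']; group
      have e2 : m ^ (n + 1) * x * (m ^ (n + 1))⁻¹ = m * (m ^ n * x * (m ^ n)⁻¹) * m⁻¹ := by
        rw [pow_succ']; group
      refine ⟨by rw [e1]; exact hgE _ h1, ?_⟩
      rw [e1, e2, hgm _ h1, h2]
  have hmo : orderOf m ≠ 0 := by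
    have := orderOf_pos (⟨m, hm⟩ : M)
    rw [Subgroup.orderOf_mk] at this
    exact this.ne'
  obtain ⟨a, ha⟩ := exists_ppart hp hmo
  intro x hx
  apply comm_of_pow (a := a) hg
  have h1 := (hpow (p ^ a) x hx).2
  have hxo : ∃ k, orderOf x ∣ p ^ k := by
    obtain ⟨k, hk⟩ := hE ⟨x, hx⟩
    exact ⟨k, orderOf_dvd_of_pow_eq_one (congrArg Subtype.val hk)⟩
  obtain ⟨k, hk⟩ := hxo
  have h2 : m ^ p ^ a * x = x * m ^ p ^ a := by
    have h3 := nil_comm (⟨m ^ p ^ a, M.pow_mem hm _⟩ : M) ⟨x, hEM hx⟩ (by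
      rw [Subgroup.orderOf_mk, Subgroup.orderOf_mk]
      exact (Nat.Coprime.pow_right k ha).coprime_dvd_right hk)
    exact congrArg Subtype.val h3
  rw [h2, mul_inv_cancel_right] at h1
  exact mul_inv_eq_iff_eq_mul.1 h1

/-- `z` is a central element of order `p` of `M` all whose conjugates in `M` are trivial. -/
structure Good {G : Type*} [Group G] (M : Subgroup G) (p : ℕ) (z : G) : Prop where
  mem : z ∈ M
  ord : orderOf z = p
  cen : ∀ m ∈ M, m * z = z * m
  iso : ∀ g, g * z * g⁻¹ ∈ M → g ∈ M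

theorem Good.comm {G : Type*} [Group G] {M : Subgroup G} {p : ℕ} {z : G} (h : Good M p z)
    {g : G} (hg : g * z = z * g) : g ∈ M := by
  apply h.iso
  rw [hg, mul_inv_cancel_right]
  exact h.mem

theorem Good.conj {G : Type*} [Group G] {M : Subgroup G} {p : ℕ} {z : G} (h : Good M p z)
    {g : G} (hg : g * z * g⁻¹ ∈ M) : g * z * g⁻¹ = z := by
  rw [h.cen g (h.iso g hg), mul_inv_cancel_right]

/-- The Sylow subgroup of `H` is a Sylow subgroup of `K`, and the fusion condition holds. -/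
theorem good_pc {K : Type*} [Group K] [Finite K] (H : Subgroup K) [Group.IsNilpotent H]
    {p : ℕ} [hp : Fact p.Prime] {z : K} (hz : Good H p z) :
    PC p K ∧ ∃ P : Sylow p K, (P : Subgroup K) ≤ H ∧ z ∈ P := by
  obtain ⟨PH⟩ : Nonempty (Sylow p H) := inferInstance
  have hPH := nil_sylow p PH
  set P : Subgroup K := (PH : Subgroup H).map H.subtype with hP
  have hPle : P ≤ H := by
    rintro _ ⟨x, -, rfl⟩
    exact x.2
  have hPmem : ∀ x ∈ H, (∃ k : ℕ, x ^ p ^ k = 1) → x ∈ P := by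
    rintro x hx ⟨k, hk⟩
    refine ⟨⟨x, hx⟩, (hPH _).2 ⟨k, Subtype.ext ?_⟩, rfl⟩
    push_cast
    exact hk
  have pP : IsPGroup p P := PH.isPGroup'.map _
  have hpz : ∃ k : ℕ, z ^ p ^ k = 1 := ⟨1, by rw [pow_one, ← hz.ord, pow_orderOf_eq_one]⟩
  have hzP : z ∈ P := hPmem z hz.mem hpz
  obtain ⟨S, hPS⟩ := pP.exists_le_sylow
  have hSP : (S : Subgroup K) = P := by
    by_contra hne
    obtain ⟨x, hxS, hxP, hx⟩ := exists_growth P S S.isPGroup'
      (lt_of_le_of_ne hPS (fun h => hne h.symm))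
    apply hxP
    apply hPmem x (hz.iso x (hPle ((hx z).1 hzP)))
    obtain ⟨k, hk⟩ := S.isPGroup' ⟨x, hxS⟩
    exact ⟨k, congrArg Subtype.val hk⟩
  refine ⟨?_, S, by rw [hSP]; exact hPle, by
    have : z ∈ (S : Subgroup K) := by rw [hSP]; exact hzP
    exact this⟩
  -- the fusion condition for subgroups of `P`
  have key : ∀ E : Subgroup K, E ≤ P → ∀ g : K, (∀ x ∈ E, g * x * g⁻¹ ∈ E) →
      (orderOf g).Coprime p → ∀ x ∈ E, g * x = x * g := by
    intro E hEP g hg hgo
    have hE : IsPGroup p E := pP.to_le hEP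
    have hinv : ∀ x ∈ E, g⁻¹ * x * g ∈ E := by
      -- `E` is finite
      intro x hx
      have hinj : Function.Injective (fun y : E => (⟨g * (y : K) * g⁻¹, hg _ y.2⟩ : E)) := by
        intro y1 y2 h12
        have : g * (y1 : K) * g⁻¹ = g * (y2 : K) * g⁻¹ := congrArg Subtype.val h12
        exact Subtype.ext (by simpa using this)
      obtain ⟨y, hy⟩ := (Finite.surjective_of_injective hinj) ⟨x, hx⟩
      have h1 : g * (y : K) * g⁻¹ = x := congrArg Subtype.val hy
      have h2 : g⁻¹ * x * g = (y : K) := by rw [← h1]; group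
      rw [h2]
      exact y.2
    set C : Subgroup K := centralizer (E : Set K) with hC
    have hCmem : ∀ c, c ∈ C ↔ ∀ x ∈ E, c * x = x * c := by
      intro c
      rw [hC, mem_centralizer_iff]
      exact ⟨fun h x hx => (h x hx).symm, fun h x hx => (h x hx).symm⟩
    have hzC : z ∈ C := by
      rw [hCmem]
      intro x hx
      exact (hz.cen x (hPle (hEP hx))).symm
    have hgz : g * z * g⁻¹ ∈ C := by
      rw [hCmem] at hzC ⊢
      intro x hx
      have h1 := hzC _ (hinv x hx)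
      calc g * z * g⁻¹ * x = g * (z * (g⁻¹ * x * g)) * g⁻¹ := by group
        _ = g * ((g⁻¹ * x * g) * z) * g⁻¹ := by rw [h1]
        _ = x * (g * z * g⁻¹) := by group
    have hpz' : IsPGroup p (zpowers (g * z * g⁻¹)) := by
      obtain ⟨k, hk⟩ := hpz
      rintro ⟨y, hy⟩
      obtain ⟨j, rfl⟩ := mem_zpowers_iff.1 hy
      refine ⟨k, Subtype.ext ?_⟩
      push_cast
      rw [← zpow_natCast, ← zpow_mul, mul_comm, zpow_mul, zpow_natCast, conj_pow, hk, mul_one,
        mul_inv_cancel, one_zpow]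
    obtain ⟨T, hTC, pT, -, hPT, n, hn, hnT⟩ := common (p := p) C (P ⊓ C) (zpowers (g * z * g⁻¹))
      inf_le_right (by rw [zpowers_le]; exact hgz) (pP.to_le inf_le_left) hpz'
    have hTP : T = P ⊓ C := by
      by_contra hne
      obtain ⟨x, hxT, hxP, hx⟩ := exists_growth (P ⊓ C) T pT
        (lt_of_le_of_ne hPT (fun h => hne h.symm))
      apply hxP
      refine ⟨?_, hTC hxT⟩
      apply hPmem x (hz.iso x (hPle ((hx z).1 ⟨hzP, hzC⟩).1))
      obtain ⟨k, hk⟩ := pT ⟨x, hxT⟩
      exact ⟨k, congrArg Subtype.val hk⟩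
    have h1 := hnT _ (mem_zpowers _)
    rw [hTP] at h1
    have h2 : (n * g) * z * (n * g)⁻¹ ∈ H := by
      have : (n * g) * z * (n * g)⁻¹ = n * (g * z * g⁻¹) * n⁻¹ := by group
      rw [this]
      exact hPle h1.1
    have h3 : n * g ∈ H := hz.iso _ h2
    rw [hCmem] at hn
    apply act_trivial hp.out E (hEP.trans hPle) hE g (n * g) h3 hg ?_ hgo
    intro x hx
    have h4 := hn _ (hg x hx)
    have e1 : n * g * x * (n * g)⁻¹ = (n * (g * x * g⁻¹)) * n⁻¹ := by group
    rw [e1, h4, mul_inv_cancel_right]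
  intro E hE g hg hgo
  obtain ⟨S', hS'⟩ := hE.exists_le_sylow
  obtain ⟨k, hk⟩ := MulAction.exists_smul_eq K S' S
  have hmap : ∀ x ∈ E, k * x * k⁻¹ ∈ P := by
    intro x hx
    have h1 : k * x * k⁻¹ ∈ ((k • S' : Sylow p K) : Subgroup K) := by
      rw [Sylow.coe_subgroup_smul]
      exact Subgroup.smul_mem_pointwise_smul _ (MulAut.conj k) _ (hS' hx)
    rw [hk, hSP] at h1
    exact h1
  have h5 := key (E.map (MulAut.conj k).toMonoidHom) (by
      rintro _ ⟨x, hx, rfl⟩
      exact hmap x hx) (k * g * k⁻¹) (by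
      rintro _ ⟨x, hx, rfl⟩
      refine ⟨g * x * g⁻¹, hg x hx, ?_⟩
      simp [mul_assoc]) (by
      have : k * g * k⁻¹ = MulAut.conj k g := by simp
      rw [this, MulEquiv.orderOf_eq]
      exact hgo)
  intro x hx
  have h6 := h5 (k * x * k⁻¹) ⟨x, hx, by simp⟩
  have h7 : k * (g * x) * k⁻¹ = k * (x * g) * k⁻¹ := by
    calc k * (g * x) * k⁻¹ = k * g * k⁻¹ * (k * x * k⁻¹) := by group
      _ = k * x * k⁻¹ * (k * g * k⁻¹) := h6
      _ = _ := by group
  simpa using h7

end Pool.Agent.Helper4.BM
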