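import Pool.Agent.Helper4.BM.Split
import Pool.Agent.Helper21.BP.Main

/-!
Conjugacy biprimitively finite groups: passage to sections `N_G(E)/E`.
-/

namespace Pool.Agent.Helper4.BM

open Subgroup

theorem finite_comap {A B : Type*} [Group A] [Group B] (f : A →* B) (hf : Finite f.ker)
    (S : Subgroup B) (hS : Finite S) : Finite (S.comap f) := by
  have h1 : (f ⁻¹' (S : Set B)).Finite := by
    apply Set.Finite.preimage' (Set.toFinite _)
    intro b _
    by_cases hb : ∃ a, f a = b
    · obtain ⟨a, rfl⟩ := hb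
      have h2 : f ⁻¹' {f a} ⊆ (fun k => a * k) '' (f.ker : Set A) := by
        intro y hy
        refine ⟨a⁻¹ * y, ?_, by group⟩
        rw [SetLike.mem_coe, MonoidHom.mem_ker, map_mul, map_inv]
        rw [Set.mem_preimage, Set.mem_singleton_iff] at hy
        rw [hy, inv_mul_cancel]
      exact (Set.Finite.image _ (Set.toFinite _)).subset h2
    · have : f ⁻¹' {b} = ∅ := by
        ext y
        simp only [Set.mem_preimage, Set.mem_singleton_iff, Set.mem_empty_iff_false, iff_false]
        intro hy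
        exact hb ⟨y, hy⟩
      rw [this]
      exact Set.finite_empty
  exact h1.to_subtype

/-- Conjugacy biprimitive finiteness in terms of subgroups. -/
def CB (G : Type*) [Group G] : Prop :=
  ∀ E : Subgroup G, Finite E → ∀ z g : G, z ∈ normalizer (E : Set G) →
    g ∈ normalizer (E : Set G) → ∀ p : ℕ, p.Prime → z ^ p ∈ E → z ∉ E →
      Finite (closure ((E : Set G) ∪ {z, g * z * g⁻¹}))

theorem cb_of {G : Type*} [Group G] (h : Helper21.BP.ConjugacyBiprimitivelyFinite G) : CB G := by
  intro E hE z g hz hg p hp hzp hzE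
  set N := normalizer (E : Set G) with hN
  set E1 := E.subgroupOf N with hE1
  have hx : orderOf (QuotientGroup.mk (⟨z, hz⟩ : N) : N ⧸ E1) = p := by
    haveI : Fact p.Prime := ⟨hp⟩
    apply orderOf_eq_prime
    · rw [← QuotientGroup.mk_pow, QuotientGroup.eq_one_iff, mem_subgroupOf]
      exact hzp
    · intro h1
      rw [QuotientGroup.eq_one_iff, mem_subgroupOf] at h1
      exact hzE h1
  have hw : g * z * g⁻¹ ∈ N := N.mul_mem (N.mul_mem hg hz) (N.inv_mem hg)
  have hfin := h E hE (QuotientGroup.mk (⟨z, hz⟩ : N)) (QuotientGroup.mk (⟨g * z * g⁻¹, hw⟩ : N))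
    (by rw [hx]; exact hp) (by
      rw [isConj_iff]
      exact ⟨QuotientGroup.mk (⟨g, hg⟩ : N), rfl⟩)
  have hker : Finite (QuotientGroup.mk' E1).ker := by
    rw [QuotientGroup.ker_mk']
    exact Finite.of_injective (fun y : E1 => (⟨((y : N) : G), mem_subgroupOf.1 y.2⟩ : E))
      (fun y1 y2 h12 => Subtype.ext (Subtype.ext (congrArg (fun t : E => (t : G)) h12)))
  have h2 := finite_comap (QuotientGroup.mk' E1) hker _ hfin
  have h3 : closure ((E : Set G) ∪ {z, g * z * g⁻¹}) ≤
      ((closure ({QuotientGroup.mk (⟨z, hz⟩ : N), QuotientGroup.mk (⟨g * z * g⁻¹, hw⟩ : N)} :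
        Set (N ⧸ E1))).comap (QuotientGroup.mk' E1)).map N.subtype := by
    rw [closure_le]
    rintro y (hy | hy | hy)
    · refine ⟨⟨y, le_normalizer hy⟩, ?_, rfl⟩
      rw [SetLike.mem_coe, mem_comap]
      have : QuotientGroup.mk' E1 ⟨y, le_normalizer hy⟩ = 1 := by
        rw [QuotientGroup.mk'_apply, QuotientGroup.eq_one_iff, mem_subgroupOf]
        exact hy
      rw [this]
      exact one_mem _
    · refine ⟨⟨z, hz⟩, ?_, hy.symm⟩
      rw [SetLike.mem_coe, mem_comap]
      exact subset_closure (Or.inl rfl)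
    · refine ⟨⟨g * z * g⁻¹, hw⟩, ?_, (Set.mem_singleton_iff.1 hy).symm⟩
      rw [SetLike.mem_coe, mem_comap]
      exact subset_closure (Or.inr rfl)
  have h4 : Finite (((closure ({QuotientGroup.mk (⟨z, hz⟩ : N),
      QuotientGroup.mk (⟨g * z * g⁻¹, hw⟩ : N)} :
        Set (N ⧸ E1))).comap (QuotientGroup.mk' E1)).map N.subtype) :=
    (Set.Finite.image _ (Set.toFinite (((closure ({QuotientGroup.mk (⟨z, hz⟩ : N),
      QuotientGroup.mk (⟨g * z * g⁻¹, hw⟩ : N)} :
        Set (N ⧸ E1))).comap (QuotientGroup.mk' E1) : Subgroup N) : Set N))).to_subtype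
  exact Finite.of_injective (inclusion h3) (inclusion_injective h3)

theorem cb_subgroup {G : Type*} [Group G] (h : CB G) (H : Subgroup G) : CB H := by
  intro E hE z g hz hg p hp hzp hzE
  have h1 := h (E.map H.subtype) ((Set.Finite.image _ (Set.toFinite (E : Set H))).to_subtype)
    (z : G) (g : G) (le_normalizer_map H.subtype ⟨z, hz, rfl⟩)
    (le_normalizer_map H.subtype ⟨g, hg, rfl⟩) p hp ⟨z ^ p, hzp, by simp⟩ (by
      rintro ⟨y, hy, hyz⟩
      have : y = z := Subtype.ext hyz
      rw [this] at hy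
      exact hzE hy)
  have h2 : (closure ((E : Set H) ∪ {z, g * z * g⁻¹})).map H.subtype =
      closure (((E.map H.subtype : Subgroup G) : Set G) ∪ {(z : G), (g : G) * z * (g : G)⁻¹}) := by
    rw [MonoidHom.map_closure, Set.image_union, Set.image_pair]
    rfl
  rw [← h2] at h1
  exact Finite.of_injective (fun y : closure ((E : Set H) ∪ {z, g * z * g⁻¹}) =>
    (⟨(y : H), ⟨y, y.2, rfl⟩⟩ : (closure ((E : Set H) ∪ {z, g * z * g⁻¹})).map H.subtype))
    (fun y1 y2 h12 => Subtype.ext (Subtype.ext (congrArg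
      (fun t : (closure ((E : Set H) ∪ {z, g * z * g⁻¹})).map H.subtype => (t : G)) h12)))

theorem cb_quotient {G : Type*} [Group G] (h : CB G) (N : Subgroup G) [N.Normal]
    (hN : Finite N) : CB (G ⧸ N) := by
  intro E hE z g hz hg p hp hzp hzE
  obtain ⟨z, rfl⟩ := QuotientGroup.mk'_surjective N z
  obtain ⟨g, rfl⟩ := QuotientGroup.mk'_surjective N g
  have hker : Finite (QuotientGroup.mk' N).ker := by
    rw [QuotientGroup.ker_mk']
    exact hN
  have hsurj := QuotientGroup.mk'_surjective N
  have hEf := finite_comap (QuotientGroup.mk' N) hker E hE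
  have hnor : normalizer ((E.comap (QuotientGroup.mk' N) : Subgroup G) : Set G) =
      (normalizer (E : Set (G ⧸ N))).comap (QuotientGroup.mk' N) :=
    (comap_normalizer_eq_of_surjective E hsurj).symm
  have h1 := h (E.comap (QuotientGroup.mk' N)) hEf z g (by rw [hnor]; exact hz)
    (by rw [hnor]; exact hg) p hp (by rw [mem_comap, map_pow]; exact hzp)
    (fun h2 => hzE h2)
  have h2 : closure ((E : Set (G ⧸ N)) ∪ {QuotientGroup.mk' N z, QuotientGroup.mk' N g *
      QuotientGroup.mk' N z * (QuotientGroup.mk' N g)⁻¹}) =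
      (closure (((E.comap (QuotientGroup.mk' N) : Subgroup G) : Set G) ∪
        {z, g * z * g⁻¹})).map (QuotientGroup.mk' N) := by
    rw [MonoidHom.map_closure, Set.image_union, Set.image_pair, coe_comap,
      Set.image_preimage_eq _ hsurj]
    rfl
  rw [h2]
  exact (Set.Finite.image _ (Set.toFinite ((closure (((E.comap (QuotientGroup.mk' N) :
    Subgroup G) : Set G) ∪ {z, g * z * g⁻¹}) : Subgroup G) : Set G))).to_subtype

/-- The inductive hypothesis on the pair `(G, M)`. -/
structure HX {G : Type*} [Group G] (M : Subgroup G) : Prop where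
  tors : ∀ g : G, IsOfFinOrder g
  cb : CB G
  fin : Finite M
  nil : Group.IsNilpotent M
  iso : ∀ p : ℕ, p.Prime → p ∣ Nat.card M → p ≠ 2 ∧ ∃ z, Good M p z

/-- The section of `M`. -/
def Sec {G : Type*} [Group G] (M E : Subgroup G) :
    Subgroup (normalizer (E : Set G) ⧸ E.subgroupOf (normalizer (E : Set G))) :=
  (M.subgroupOf (normalizer (E : Set G))).map
    (QuotientGroup.mk' (E.subgroupOf (normalizer (E : Set G))))

theorem mem_sec {G : Type*} [Group G] {M E : Subgroup G} (hEM : E ≤ M)
    (g : normalizer (E : Set G)) : (QuotientGroup.mk g : normalizer (E : Set G) ⧸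
      E.subgroupOf (normalizer (E : Set G))) ∈ Sec M E ↔ (g : G) ∈ M := by
  constructor
  · rintro ⟨y, hy, hyg⟩
    rw [QuotientGroup.mk'_apply, QuotientGroup.eq, mem_subgroupOf] at hyg
    have h1 := M.mul_mem (mem_subgroupOf.1 hy) (hEM hyg)
    simpa using h1
  · intro hg
    exact ⟨g, mem_subgroupOf.2 hg, rfl⟩

theorem good_sec {G : Type*} [Group G] {M E : Subgroup G} (hEM : E ≤ M) {p : ℕ} (hp : p.Prime)
    {z : G} (hz : Good M p z) (hzE : z ∉ E) :
    ∃ hzN : z ∈ normalizer (E : Set G), Good (Sec M E) p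
      (QuotientGroup.mk (⟨z, hzN⟩ : normalizer (E : Set G)) : normalizer (E : Set G) ⧸
        E.subgroupOf (normalizer (E : Set G))) := by
  have hzN : z ∈ normalizer (E : Set G) := by
    rw [mem_normalizer_iff]
    intro e
    constructor
    · intro he
      rw [← hz.cen e (hEM he), mul_inv_cancel_right]
      exact he
    · intro he
      have h1 := hz.cen _ (hEM he)
      have h2 : e = z⁻¹ * (z * e * z⁻¹) * z := by group
      rw [h2, mul_assoc, h1, ← mul_assoc, inv_mul_cancel, one_mul]
      exact he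
  refine ⟨hzN, ?_, ?_, ?_, ?_⟩
  · exact (mem_sec hEM _).2 hz.mem
  · haveI : Fact p.Prime := ⟨hp⟩
    apply orderOf_eq_prime
    · rw [← QuotientGroup.mk_pow, QuotientGroup.eq_one_iff, mem_subgroupOf]
      push_cast
      rw [← hz.ord, pow_orderOf_eq_one]
      exact one_mem _
    · intro h1
      rw [QuotientGroup.eq_one_iff, mem_subgroupOf] at h1
      exact hzE h1
  · intro m hm
    obtain ⟨m, rfl⟩ := QuotientGroup.mk_surjective m
    have h1 := hz.cen _ ((mem_sec hEM m).1 hm)
    rw [← QuotientGroup.mk_mul, ← QuotientGroup.mk_mul]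
    congr 1
    exact Subtype.ext h1
  · intro g hg
    obtain ⟨g, rfl⟩ := QuotientGroup.mk_surjective g
    rw [← QuotientGroup.mk_inv, ← QuotientGroup.mk_mul, ← QuotientGroup.mk_mul, mem_sec hEM] at hg
    exact (mem_sec hEM g).2 (hz.iso _ hg)

theorem HX.sec {G : Type*} [Group G] {M E : Subgroup G} (h : HX M) (hEM : E ≤ M)
    (hEz : ∀ p : ℕ, p.Prime → p ∣ Nat.card M → ∃ z, Good M p z ∧ z ∉ E) : HX (Sec M E) := by
  haveI := h.fin
  have hEf : Finite E := Finite.of_injective (inclusion hEM) (inclusion_injective hEM)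
  have hE1f : Finite (E.subgroupOf (normalizer (E : Set G))) :=
    Finite.of_injective (fun y : E.subgroupOf (normalizer (E : Set G)) =>
      (⟨((y : normalizer (E : Set G)) : G), mem_subgroupOf.1 y.2⟩ : E))
      (fun y1 y2 h12 => Subtype.ext (Subtype.ext (congrArg (fun t : E => (t : G)) h12)))
  have hMf : Finite (M.subgroupOf (normalizer (E : Set G))) :=
    Finite.of_injective (fun y : M.subgroupOf (normalizer (E : Set G)) =>
      (⟨((y : normalizer (E : Set G)) : G), mem_subgroupOf.1 y.2⟩ : M))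
      (fun y1 y2 h12 => Subtype.ext (Subtype.ext (congrArg (fun t : M => (t : G)) h12)))
  refine ⟨?_, cb_quotient (cb_subgroup h.cb _) _ hE1f, ?_, ?_, ?_⟩
  · intro g
    obtain ⟨g, rfl⟩ := QuotientGroup.mk_surjective g
    have h1 : IsOfFinOrder g := by
      obtain ⟨n, hn, hng⟩ := isOfFinOrder_iff_pow_eq_one.1 (h.tors g)
      exact isOfFinOrder_iff_pow_eq_one.2 ⟨n, hn, Subtype.ext hng⟩
    exact (QuotientGroup.mk' (E.subgroupOf (normalizer (E : Set G)))).isOfFinOrder h1
  · exact (Set.Finite.image _ (Set.toFinite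
      ((M.subgroupOf (normalizer (E : Set G)) : Subgroup (normalizer (E : Set G))) :
        Set (normalizer (E : Set G))))).to_subtype
  · haveI := h.nil
    haveI := nil_subgroupOf (M := M) (normalizer (E : Set G))
    have hs : Function.Surjective ((QuotientGroup.mk' (E.subgroupOf
        (normalizer (E : Set G)))).subgroupMap (M.subgroupOf (normalizer (E : Set G)))) :=
      MonoidHom.subgroupMap_surjective _ _
    exact Group.nilpotent_of_surjective _ hs
  · intro p hp hpd
    have h1 : Nat.card (Sec M E) ∣ Nat.card M := by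
      refine (Subgroup.card_map_dvd _ _).trans ?_
      let f : M.subgroupOf (normalizer (E : Set G)) →* M :=
        { toFun := fun y => ⟨((y : normalizer (E : Set G)) : G), mem_subgroupOf.1 y.2⟩
          map_one' := rfl
          map_mul' := fun _ _ => rfl }
      exact card_dvd_of_injective f
        (fun y1 y2 h12 => Subtype.ext (Subtype.ext (congrArg (fun t : M => (t : G)) h12)))
    obtain ⟨z, hz, hzE⟩ := hEz p hp (hpd.trans h1)
    obtain ⟨hzN, hg⟩ := good_sec hEM hp hz hzE
    exact ⟨(h.iso p hp (hpd.trans h1)).1, _, hg⟩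

theorem card_sec_lt {G : Type*} [Group G] {M E : Subgroup G} (hM : Finite M) (hEM : E ≤ M)
    {w : G} (hw : w ∈ E) (hw1 : w ≠ 1) : Nat.card (Sec M E) < Nat.card M := by
  have hMf : Finite (M.subgroupOf (normalizer (E : Set G))) :=
    Finite.of_injective (fun y : M.subgroupOf (normalizer (E : Set G)) =>
      (⟨((y : normalizer (E : Set G)) : G), mem_subgroupOf.1 y.2⟩ : M))
      (fun y1 y2 h12 => Subtype.ext (Subtype.ext (congrArg (fun t : M => (t : G)) h12)))
  have h1 : Nat.card (M.subgroupOf (normalizer (E : Set G))) ≤ Nat.card M :=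
    Nat.card_le_card_of_injective (fun y : M.subgroupOf (normalizer (E : Set G)) =>
      (⟨((y : normalizer (E : Set G)) : G), mem_subgroupOf.1 y.2⟩ : M))
      (fun y1 y2 h12 => Subtype.ext (Subtype.ext (congrArg (fun t : M => (t : G)) h12)))
  refine lt_of_lt_of_le ?_ h1
  have hs : Function.Surjective ((QuotientGroup.mk' (E.subgroupOf
      (normalizer (E : Set G)))).subgroupMap (M.subgroupOf (normalizer (E : Set G)))) :=
    MonoidHom.subgroupMap_surjective _ _
  have h2 : Nat.card (Sec M E) ≤ Nat.card (M.subgroupOf (normalizer (E : Set G))) :=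
    Nat.card_le_card_of_surjective _ hs
  apply lt_of_le_of_ne h2
  intro heq
  have hinj : Function.Injective ((QuotientGroup.mk' (E.subgroupOf
      (normalizer (E : Set G)))).subgroupMap (M.subgroupOf (normalizer (E : Set G)))) :=
    ((Nat.bijective_iff_surjective_and_card _).2 ⟨hs, heq.symm⟩).1
  have hwN : w ∈ normalizer (E : Set G) := le_normalizer hw
  apply hw1
  have h3 : (⟨⟨w, hwN⟩, mem_subgroupOf.2 (hEM hw)⟩ : M.subgroupOf (normalizer (E : Set G))) = 1 := by
    apply hinj
    rw [map_one]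
    apply Subtype.ext
    change (QuotientGroup.mk (⟨w, hwN⟩ : normalizer (E : Set G)) : normalizer (E : Set G) ⧸
      E.subgroupOf (normalizer (E : Set G))) = 1
    rw [QuotientGroup.eq_one_iff, mem_subgroupOf]
    exact hw
  exact congrArg (fun t : M.subgroupOf (normalizer (E : Set G)) =>
    ((t : normalizer (E : Set G)) : G)) h3

end Pool.Agent.Helper4.BM
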