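import Pool.Agent.Helper4.BM.Ker

/-!
The normal complement (adapted from Pool.Agent.Helper21.BP.Split).
-/

namespace Pool.Agent.Helper4.BM

open Subgroup

variable {G : Type*} [Group G] {M : Subgroup G}

/-- A good element of odd prime order with regular kernels. -/
structure Reg (M : Subgroup G) (p : ℕ) (z : G) : Prop extends Good M p z where
  ker : ∀ x : G, ∃ N : Subgroup G, Finite N ∧ (∀ n ∈ N, z * n * z⁻¹ ∈ N) ∧
    (∀ n ∈ N, (x * z * x⁻¹) * n * (x * z * x⁻¹)⁻¹ ∈ N) ∧ x * z * x⁻¹ * z⁻¹ ∈ N ∧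
    (∀ n ∈ N, n ∈ M → n = 1) ∧ ∀ n ∈ N, (orderOf n).Coprime p

/-- A finite subgroup `N` meeting `M` trivially and normalised by `a` with `C(a) ≤ M`: every
element of `N a` is conjugate to `a` under `N`. -/
theorem conj_surj {a : G} (hcen : ∀ u, u * a = a * u → u ∈ M) (N : Subgroup G)
    (hfin : Finite N) (hn : ∀ n ∈ N, a * n * a⁻¹ ∈ N) (hNM : ∀ n ∈ N, n ∈ M → n = 1) :
    ∀ n ∈ N, ∃ m ∈ N, m⁻¹ * a * m * a⁻¹ = n := by
  have hinj : Function.Injective (fun m : N => (⟨(m : G)⁻¹ * (a * (m : G) * a⁻¹),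
      N.mul_mem (N.inv_mem m.2) (hn _ m.2)⟩ : N)) := by
    intro m1 m2 h12
    have h12' : (m1 : G)⁻¹ * (a * (m1 : G) * a⁻¹) = (m2 : G)⁻¹ * (a * (m2 : G) * a⁻¹) :=
      congrArg Subtype.val h12
    have h3 : (m2 : G) * (m1 : G)⁻¹ ∈ M := by
      apply hcen
      have h4 : (m2 : G) * ((m1 : G)⁻¹ * (a * (m1 : G) * a⁻¹)) * a * (m1 : G)⁻¹ =
          (m2 : G) * ((m2 : G)⁻¹ * (a * (m2 : G) * a⁻¹)) * a * (m1 : G)⁻¹ := by rw [h12']
      simpa [mul_assoc] using h4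
    have h5 := hNM _ (N.mul_mem m2.2 (N.inv_mem m1.2)) h3
    apply Subtype.ext
    exact (mul_inv_eq_one.1 h5).symm
  have hsurj := Finite.surjective_of_injective hinj
  intro n hnn
  obtain ⟨m, hm⟩ := hsurj ⟨n, hnn⟩
  refine ⟨m, m.2, ?_⟩
  have := congrArg Subtype.val hm
  simpa [mul_assoc] using this

theorem Good.cen_pow {p : ℕ} (hp : p.Prime) {z : G} (h : Good M p z) (j : ℕ) (hj : z ^ j ≠ 1)
    (u : G) (hu : u * z ^ j = z ^ j * u) : u ∈ M := by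
  have h1 : j.Coprime (orderOf z) := by
    rw [h.ord]
    apply Nat.Coprime.symm
    rw [Nat.Prime.coprime_iff_not_dvd hp]
    intro hd
    apply hj
    rw [← orderOf_dvd_iff_pow_eq_one, h.ord]
    exact hd
  obtain ⟨m, hm⟩ := exists_pow_eq_self_of_coprime h1
  have h2 : Commute u (z ^ j) := hu
  have h3 := h2.pow_right m
  rw [hm] at h3
  exact h.comm h3

/-- All powers of `z` give the same set of quotients `x z x⁻¹ z⁻¹`. -/
theorem Reg.powers {p : ℕ} (hp : p.Prime) {a : G} (h : Reg M p a)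
    (j : ℕ) (hj : a ^ j ≠ 1) (g : G) :
    (∃ x, g = x * a * x⁻¹ * a⁻¹) ↔ ∃ y, g = y * a ^ j * y⁻¹ * (a ^ j)⁻¹ := by
  constructor
  · rintro ⟨x, rfl⟩
    obtain ⟨N, hNf, hNa, hNb, hNx, hNM, -⟩ := h.ker x
    have hNj : ∀ i : ℕ, ∀ n ∈ N, a ^ i * n * (a ^ i)⁻¹ ∈ N := by
      intro i
      induction i with
      | zero => intro n hn; simpa using hn
      | succ i ih =>
        intro n hn
        have := hNa _ (ih n hn)
        have h2 : a ^ (i + 1) * n * (a ^ (i + 1))⁻¹ = a * (a ^ i * n * (a ^ i)⁻¹) * a⁻¹ := by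
          rw [pow_succ']; group
        rw [h2]
        exact this
    obtain ⟨m, hm, hmx⟩ := conj_surj (fun u hu => h.toGood.cen_pow hp j hj u hu) N hNf (hNj j)
      hNM _ hNx
    exact ⟨m⁻¹, by rw [← hmx, inv_inv]⟩
  · rintro ⟨y, rfl⟩
    obtain ⟨N, hNf, hNa, hNb, hNx, hNM, -⟩ := h.ker y
    have hpow : ∀ i : ℕ, (y * a * y⁻¹) ^ i * (a ^ i)⁻¹ ∈ N := by
      intro i
      induction i with
      | zero => simp
      | succ i ih =>
        have h1 := hNb _ ih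
        have h2 := N.mul_mem h1 hNx
        have h3 : (y * a * y⁻¹) ^ (i + 1) * (a ^ (i + 1))⁻¹ =
            y * a * y⁻¹ * ((y * a * y⁻¹) ^ i * (a ^ i)⁻¹) * (y * a * y⁻¹)⁻¹ *
              (y * a * y⁻¹ * a⁻¹) := by
          rw [pow_succ', pow_succ]
          group
        rw [h3]
        exact h2
    have h4 : y * a ^ j * y⁻¹ * (a ^ j)⁻¹ ∈ N := by
      have := hpow j
      rwa [conj_pow] at this
    obtain ⟨m, hm, hmx⟩ := conj_surj (fun u hu => h.toGood.comm hu) N hNf hNa hNM _ h4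
    exact ⟨m⁻¹, by rw [← hmx, inv_inv]⟩

theorem Reg.mul_closed {p : ℕ} (hp : p.Prime) (hp2 : p ≠ 2) {a : G} (h : Reg M p a)
    {f g : G} (hf : ∃ x, f = x * a * x⁻¹ * a⁻¹) (hg : ∃ x, g = x * a * x⁻¹ * a⁻¹) :
    ∃ x, f * g = x * a * x⁻¹ * a⁻¹ := by
  have h2 : a ^ 2 ≠ 1 := by
    intro h1
    have := orderOf_dvd_of_pow_eq_one h1
    rw [h.ord] at this
    exact hp2 ((Nat.prime_dvd_prime_iff_eq hp Nat.prime_two).1 this)
  obtain ⟨y, rfl⟩ := hf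
  obtain ⟨x, rfl⟩ := hg
  -- `x' = a⁻¹ x`
  obtain ⟨z, hz⟩ := (h.powers hp 2 h2 ((a⁻¹ * x)⁻¹ * y * a * ((a⁻¹ * x)⁻¹ * y)⁻¹ *
    a⁻¹)).1 ⟨_, rfl⟩
  rw [h.powers hp 2 h2]
  refine ⟨a⁻¹ * x * z, ?_⟩
  have h3 : y * a * y⁻¹ * a⁻¹ * (x * a * x⁻¹ * a⁻¹) =
      (a⁻¹ * x) * ((a⁻¹ * x)⁻¹ * y * a * ((a⁻¹ * x)⁻¹ * y)⁻¹ * a⁻¹) * a ^ 2 *
        (a⁻¹ * x)⁻¹ * (a ^ 2)⁻¹ := by
    rw [pow_two]
    group
  rw [h3, hz]
  group

/-- The conclusion: `F` is a normal complement of `M` consisting of the elements `[x, z]`. -/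
structure Compl (M : Subgroup G) (p : ℕ) (z : G) (F : Subgroup G) : Prop where
  normal : F.Normal
  mem : ∀ f, f ∈ F ↔ ∃ x, f = x * z * x⁻¹ * z⁻¹
  triv : ∀ f ∈ F, f ∈ M → f = 1
  top : ∀ g, ∃ f ∈ F, ∃ m ∈ M, g = f * m
  cop : ∀ f ∈ F, (orderOf f).Coprime p

/-- The normal complement. -/
theorem Reg.split (ht : ∀ g : G, IsOfFinOrder g) {p : ℕ} (hp : p.Prime) (hp2 : p ≠ 2) {a : G}
    (h : Reg M p a) : ∃ F : Subgroup G, Compl M p a F := by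
  have hmul := fun {f g : G} => h.mul_closed hp hp2 (f := f) (g := g)
  have hone : ∃ x, (1 : G) = x * a * x⁻¹ * a⁻¹ := ⟨1, by group⟩
  have hpow : ∀ (f : G), (∃ x, f = x * a * x⁻¹ * a⁻¹) → ∀ n : ℕ,
      ∃ x, f ^ n = x * a * x⁻¹ * a⁻¹ := by
    intro f hf n
    induction n with
    | zero => simpa using hone
    | succ n ih =>
      rw [pow_succ]
      exact hmul ih hf
  have hinv : ∀ (f : G), (∃ x, f = x * a * x⁻¹ * a⁻¹) → ∃ x, f⁻¹ = x * a * x⁻¹ * a⁻¹ := by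
    intro f hf
    have hfo : IsOfFinOrder f := ht f
    have hpos := hfo.orderOf_pos
    have h1 : f⁻¹ = f ^ (orderOf f - 1) := by
      rw [inv_eq_iff_mul_eq_one, ← pow_succ', Nat.sub_add_cancel hpos, pow_orderOf_eq_one]
    rw [h1]
    exact hpow f hf _
  let F : Subgroup G :=
    { carrier := {f | ∃ x, f = x * a * x⁻¹ * a⁻¹}
      mul_mem' := fun hf hg => hmul hf hg
      one_mem' := hone
      inv_mem' := fun hf => hinv _ hf }
  have hmem : ∀ f, f ∈ F ↔ ∃ x, f = x * a * x⁻¹ * a⁻¹ := fun f => Iff.rfl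
  have hnF : F.Normal := by
    constructor
    rintro f ⟨x, rfl⟩ g
    have h1 : (g * x) * a * (g * x)⁻¹ * a⁻¹ ∈ F := ⟨_, rfl⟩
    have h2 : g * a * g⁻¹ * a⁻¹ ∈ F := ⟨_, rfl⟩
    have h3 := F.mul_mem h1 (F.inv_mem h2)
    have h4 : (g * x) * a * (g * x)⁻¹ * a⁻¹ * (g * a * g⁻¹ * a⁻¹)⁻¹ =
        g * (x * a * x⁻¹ * a⁻¹) * g⁻¹ := by group
    rwa [h4] at h3
  refine ⟨F, hnF, hmem, ?_, ?_, ?_⟩
  · rintro f ⟨x, rfl⟩ hf
    have h1 : x * a * x⁻¹ ∈ M := by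
      have := M.mul_mem hf h.mem
      simpa using this
    rw [h.toGood.conj h1, mul_inv_cancel]
  · intro g
    obtain ⟨N, hNf, hNa, -, hNx, hNM, -⟩ := h.ker g
    have hsurj := conj_surj (fun u hu => h.toGood.comm hu) N hNf hNa hNM
    have hNF : ∀ n ∈ N, n ∈ F := by
      intro n hn
      obtain ⟨m, hm, hmx⟩ := hsurj n hn
      exact ⟨m⁻¹, by rw [← hmx, inv_inv]⟩
    obtain ⟨m, hm, hmx⟩ := hsurj _ hNx
    refine ⟨m⁻¹, F.inv_mem (hNF m hm), m * g, ?_, by group⟩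
    apply h.iso
    have h5 : m⁻¹ * a * m = g * a * g⁻¹ := by
      have := congrArg (fun t => t * a) hmx
      simpa [mul_assoc] using this
    have h6 : m * g * a * (m * g)⁻¹ = m * (g * a * g⁻¹) * m⁻¹ := by group
    rw [h6, ← h5]
    have h7 : m * (m⁻¹ * a * m) * m⁻¹ = a := by group
    rw [h7]
    exact h.mem
  · rintro f ⟨x, rfl⟩
    obtain ⟨N, -, -, -, hNx, -, hcop⟩ := h.ker x
    exact hcop _ hNx

/-- The complement does not depend on the good element. -/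
theorem Compl.le {p r : ℕ} {z y : G} {F E : Subgroup G} (hz : Compl M p z F)
    (hy : Compl M r y E) (hyg : Good M r y) : E ≤ F := by
  haveI := hz.normal
  intro f hf
  obtain ⟨x, rfl⟩ := (hy.mem f).1 hf
  obtain ⟨f', hf', m, hm, rfl⟩ := hz.top x
  have h1 : f' * m * y * (f' * m)⁻¹ * y⁻¹ = f' * (y * f'⁻¹ * y⁻¹) := by
    have h2 := hyg.cen m hm
    calc f' * m * y * (f' * m)⁻¹ * y⁻¹ = f' * (m * y) * m⁻¹ * f'⁻¹ * y⁻¹ := by group
      _ = f' * (y * m) * m⁻¹ * f'⁻¹ * y⁻¹ := by rw [h2]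
      _ = _ := by group
  rw [h1]
  exact F.mul_mem hf' (hz.normal.conj_mem _ (F.inv_mem hf') y)

end Pool.Agent.Helper4.BM
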